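import Pool.Agent.Work.KTT.Asym

/-!
# The lower bound for every `t`
-/

set_option autoImplicit false

open Finset Filter Topology

namespace KTT

theorem exists_family {ι : Type} [Fintype ι] {m : ℕ} (hm0 : m ≠ 0) (hm : Fintype.card ι ≤ m) :
    ∃ α : ι → GaloisField 2 m, LinearIndependent (ZMod 2) α := by
  have hfin : Module.finrank (ZMod 2) (GaloisField 2 m) = m := GaloisField.finrank 2 hm0
  let b := Module.finBasis (ZMod 2) (GaloisField 2 m)
  have hcard : Fintype.card ι ≤ Fintype.card (Fin (Module.finrank (ZMod 2) (GaloisField 2 m))) := by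
    rw [Fintype.card_fin, hfin]; exact hm
  obtain ⟨e⟩ := Function.Embedding.nonempty_of_card_le hcard
  exact ⟨b ∘ e, b.linearIndependent.comp e e.injective⟩

theorem dat_even {ι : Type} [Fintype ι] [DecidableEq ι] (A : Finset (ι → ZMod 2))
    (hA0 : (0 : ι → ZMod 2) ∉ A) {w : ℕ} (hw : 1 ≤ w) (hA : A.card ≤ 2 * w)
    (hmax : ∀ φ, wt A φ ≤ w) (m : ℕ) (hm : Fintype.card ι + 1 ≤ m) :
    Dat (2 * w) A.card
      ((univ.filter fun φ : ι → ZMod 2 => wt A φ = w).card / 2 ^ Fintype.card ι)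
      ((univ.filter fun φ : ι → ZMod 2 => wt A φ = w).card) m := by
  classical
  have hm0 : m ≠ 0 := by omega
  let _ : Fintype (GaloisField 2 m) := Fintype.ofFinite _
  have := charP2 (F := GaloisField 2 m)
  have hq : Fintype.card (GaloisField 2 m) = 2 ^ m := by
    rw [← Nat.card_eq_fintype_card, GaloisField.card 2 m hm0]
  obtain ⟨α, hα⟩ := exists_family (ι := ι) hm0 (by omega)
  obtain ⟨d, hd⟩ := exists_tr_one (F := GaloisField 2 m)
  set N0 := (univ.filter fun φ : ι → ZMod 2 => wt A φ = w).card with hN0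
  have hcA := card_codeSet hα A
  have hmaxF : ∀ g : GaloisField 2 m, ((codeSet α A).filter fun a => tr (a * g) = 1).card ≤ w := by
    intro g
    rw [card_codeSet_filter hα]
    exact hmax _
  refine ⟨(arc d (codeSet α A)).card, (fullLines (arc d (codeSet α A)) (2 * w)).card, ?_, ?_, ?_, ?_⟩
  · have := card_arc_le (d := d) (zero_notMem_codeSet hα hA0)
    rwa [hcA, hq] at this
  · have := Finset.card_le_univ (fullLines (arc d (codeSet α A)) (2 * w))
    rwa [Fintype.card_prod, hq, ← sq] at this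
  · have h1 := even_full hd hα A hw
    rw [← hN0, hq] at h1
    have h2 : 2 ^ Fintype.card ι ≤ 2 ^ m := Nat.pow_le_pow_right (by norm_num) (by omega)
    have h3 : (((2 ^ m - 2 ^ Fintype.card ι) * (N0 * 2 ^ m) : ℕ) : ℝ) ≤
        ((2 ^ Fintype.card ι * (fullLines (arc d (codeSet α A)) (2 * w)).card : ℕ) : ℝ) := by
      exact_mod_cast h1
    push_cast [Nat.cast_sub h2] at h3
    have h4 : (0 : ℝ) < 2 ^ Fintype.card ι := by positivity
    have h5 : ((N0 : ℝ) / 2 ^ Fintype.card ι * (2 ^ m) ^ 2 - N0 * 2 ^ m) * 2 ^ Fintype.card ι ≤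
        (fullLines (arc d (codeSet α A)) (2 * w)).card * 2 ^ Fintype.card ι := by
      have h6 : ((N0 : ℝ) / 2 ^ Fintype.card ι * (2 ^ m) ^ 2 - N0 * 2 ^ m) * 2 ^ Fintype.card ι =
          (2 ^ m - 2 ^ Fintype.card ι) * (N0 * 2 ^ m) := by
        field_simp
      rw [h6]
      linarith
    exact le_of_mul_le_mul_right h5 h4
  · intro k n hn
    have h := cone_main (arc d (codeSet α A)) (t := 2 * w) (by omega)
      (fun v hv z => arc_line_le hd (by rw [hcA]; exact hA) hmaxF hv z) (k := k) (n := n)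
      (by rw [hq]; exact hn)
    rwa [hq] at h

theorem dat_odd {ι : Type} [Fintype ι] [DecidableEq ι] (A : Finset (ι → ZMod 2))
    (hA0 : (0 : ι → ZMod 2) ∉ A) {w : ℕ} (hA : A.card ≤ 2 * w)
    (hmax : ∀ φ, wt A φ ≤ w)
    (hN : 0 < (univ.filter fun φ : ι → ZMod 2 => wt A φ = w).card) :
    ∃ C : ℝ, ∃ m0 : ℕ, ∀ m, m0 ≤ m → Dat (2 * w + 3) (A.card + 1)
      ((univ.filter fun φ : ι → ZMod 2 => wt A φ = w).card / (6 * 2 ^ Fintype.card ι)) C m := by
  classical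
  set N0 := (univ.filter fun φ : ι → ZMod 2 => wt A φ = w).card with hN0
  set a0 := 2 ^ Fintype.card ι * 16 + 6 * A.card + 1 with ha0
  set b0 := 2 ^ Fintype.card ι * (2 + 12 * A.card) with hb0
  refine ⟨(a0 * N0 + b0) / (6 * 2 ^ Fintype.card ι), a0 + b0 + Fintype.card ι + 1, ?_⟩
  intro m hm
  have hm0 : m ≠ 0 := by omega
  let _ : Fintype (GaloisField 2 m) := Fintype.ofFinite _
  have := charP2 (F := GaloisField 2 m)
  have hq : Fintype.card (GaloisField 2 m) = 2 ^ m := by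
    rw [← Nat.card_eq_fintype_card, GaloisField.card 2 m hm0]
  have hmq : m < 2 ^ m := Nat.lt_two_pow_self
  obtain ⟨α, hα⟩ := exists_family (ι := ι) hm0 (by omega)
  obtain ⟨d, hd⟩ := exists_tr_one (F := GaloisField 2 m)
  have hcA := card_codeSet hα A
  have hmaxF : ∀ g : GaloisField 2 m, ((codeSet α A).filter fun a => tr (a * g) = 1).card ≤ w := by
    intro g
    rw [card_codeSet_filter hα]
    exact hmax _
  set K := arc d (codeSet α A) ∪ cubic (GaloisField 2 m) with hK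
  refine ⟨K.card, (fullLines K (2 * w + 3)).card, ?_, ?_, ?_, ?_⟩
  · have h1 := card_arc_le (d := d) (zero_notMem_codeSet hα hA0)
    rw [hcA, hq] at h1
    have h2 := card_cubic_le (F := GaloisField 2 m)
    rw [hq] at h2
    refine (Finset.card_union_le _ _).trans ?_
    rw [add_mul, one_mul]
    omega
  · have := Finset.card_le_univ (fullLines K (2 * w + 3))
    rwa [Fintype.card_prod, hq, ← sq] at this
  · have h1 := odd_full hd hα A hA0 hA hmax
    rw [← hN0, ← ha0, ← hb0, hq, ← hK] at h1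
    have h2 : a0 ≤ 2 ^ m := by omega
    have h2' : b0 ≤ N0 * 2 ^ m := by
      calc b0 ≤ 1 * 2 ^ m := by omega
        _ ≤ N0 * 2 ^ m := Nat.mul_le_mul_right _ hN
    have h3 : (((2 ^ m - a0) * (N0 * 2 ^ m - b0) : ℕ) : ℝ) ≤
        ((2 ^ Fintype.card ι * (6 * (fullLines K (2 * w + 3)).card) : ℕ) : ℝ) := by
      exact_mod_cast h1
    rw [Nat.cast_mul, Nat.cast_sub h2, Nat.cast_sub h2'] at h3
    push_cast at h3
    have h4 : (0 : ℝ) < 6 * 2 ^ Fintype.card ι := by positivity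
    have h5 : ((N0 : ℝ) / (6 * 2 ^ Fintype.card ι) * (2 ^ m) ^ 2 -
        ((a0 : ℝ) * N0 + b0) / (6 * 2 ^ Fintype.card ι) * 2 ^ m) * (6 * 2 ^ Fintype.card ι) ≤
        (fullLines K (2 * w + 3)).card * (6 * 2 ^ Fintype.card ι) := by
      have h6 : ((N0 : ℝ) / (6 * 2 ^ Fintype.card ι) * (2 ^ m) ^ 2 -
        ((a0 : ℝ) * N0 + b0) / (6 * 2 ^ Fintype.card ι) * 2 ^ m) * (6 * 2 ^ Fintype.card ι) =
          (2 ^ m - a0) * (N0 * 2 ^ m - b0) - a0 * b0 := by
        field_simp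
        ring
      rw [h6]
      have h7 : (0 : ℝ) ≤ (a0 : ℝ) * b0 := by positivity
      linarith
    exact le_of_mul_le_mul_right h5 h4
  · intro k n hn
    have h := cone_main K (t := 2 * w + 3) (by omega)
      (fun v hv z => odd_line_le hd (by rw [hcA]; exact hA) hmaxF hv z) (k := k) (n := n)
      (by rw [hq]; exact hn)
    rwa [hq] at h

/-- even `t` -/
theorem even_bound {w : ℕ} (hw : 1 ≤ w) {c : ℝ} (hc : c < 3 / (512 * (2 * w : ℝ) ^ 2)) :
    ∀ᶠ n : ℕ in atTop, c * (n : ℝ) ^ 2 ≤ N (2 * w) n := by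
  classical
  obtain ⟨ι, i1, i2, A, hA0, hA, hmax, hN⟩ := exists_code w w Nat.lt_two_pow_self
  set N0 := (univ.filter fun φ : ι → ZMod 2 => wt A φ = w).card with hN0
  have hq := quarter_le_fr w
  have hN1 : (1 : ℝ) / 4 * 2 ^ Fintype.card ι ≤ N0 :=
    (mul_le_mul_of_nonneg_right hq (by positivity)).trans hN
  have hN2 : 0 < N0 := by
    have : (0 : ℝ) < N0 := lt_of_lt_of_le (by positivity) hN1
    exact_mod_cast this
  have hA1 : 1 ≤ A.card := by
    by_contra h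
    have h0 : A = ∅ := Finset.card_eq_zero.1 (by omega)
    obtain ⟨φ, hφ⟩ := Finset.card_pos.1 hN2
    rw [Finset.mem_filter] at hφ
    have := hφ.2
    rw [h0] at this
    simp [wt] at this
    omega
  have hθ : (1 : ℝ) / 4 ≤ N0 / 2 ^ Fintype.card ι := by
    rw [le_div_iff₀ (by positivity)]; exact hN1
  have hA2 : (A.card : ℝ) ≤ 2 * w := by exact_mod_cast hA
  have hA3 : (0 : ℝ) < A.card := by exact_mod_cast hA1
  refine asym hA1 (θ := N0 / 2 ^ Fintype.card ι) (C := N0) (by positivity)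
    (m0 := Fintype.card ι + 1) (fun m hm => dat_even A hA0 hw hA hmax m hm) (lt_of_lt_of_le hc ?_)
  have h1 : (1 / 4) / (2 * w : ℝ) ≤ (N0 / 2 ^ Fintype.card ι) / A.card :=
    div_le_div₀ (by positivity) hθ hA3 hA2
  have h2 := pow_le_pow_left₀ (by positivity) h1 2
  have hw' : (0 : ℝ) < w := by exact_mod_cast hw
  calc 3 / (512 * (2 * w : ℝ) ^ 2) = 3 / 32 * ((1 / 4) / (2 * w : ℝ)) ^ 2 := by
        field_simp; norm_num
    _ ≤ _ := by linarith

/-- odd `t` -/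
theorem odd_bound (w : ℕ) {c : ℝ} (hc : c < 1 / (6144 * (2 * w + 1 : ℝ) ^ 2)) :
    ∀ᶠ n : ℕ in atTop, c * (n : ℝ) ^ 2 ≤ N (2 * w + 3) n := by
  classical
  obtain ⟨ι, i1, i2, A, hA0, hA, hmax, hN⟩ := exists_code w w Nat.lt_two_pow_self
  set N0 := (univ.filter fun φ : ι → ZMod 2 => wt A φ = w).card with hN0
  have hq := quarter_le_fr w
  have hN1 : (1 : ℝ) / 4 * 2 ^ Fintype.card ι ≤ N0 :=
    (mul_le_mul_of_nonneg_right hq (by positivity)).trans hN
  have hN2 : 0 < N0 := by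
    have : (0 : ℝ) < N0 := lt_of_lt_of_le (by positivity) hN1
    exact_mod_cast this
  have hN3 : (0 : ℝ) < N0 := by exact_mod_cast hN2
  have hθ : (1 : ℝ) / 24 ≤ N0 / (6 * 2 ^ Fintype.card ι) := by
    rw [le_div_iff₀ (by positivity)]; linarith
  have hA2 : ((A.card + 1 : ℕ) : ℝ) ≤ 2 * w + 1 := by exact_mod_cast Nat.add_le_add_right hA 1
  have hA3 : (0 : ℝ) < ((A.card + 1 : ℕ) : ℝ) := by positivity
  obtain ⟨C, m0, hD⟩ := dat_odd A hA0 hA hmax hN2
  refine asym (by omega : 1 ≤ A.card + 1) (θ := N0 / (6 * 2 ^ Fintype.card ι)) (C := C) (by positivity)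
    (m0 := m0) hD (lt_of_lt_of_le hc ?_)
  have h1 : (1 / 24) / (2 * w + 1 : ℝ) ≤ (N0 / (6 * 2 ^ Fintype.card ι)) / ((A.card + 1 : ℕ) : ℝ) :=
    div_le_div₀ (by positivity) hθ hA3 hA2
  have h2 := pow_le_pow_left₀ (by positivity) h1 2
  calc 1 / (6144 * (2 * w + 1 : ℝ) ^ 2) = 3 / 32 * ((1 / 24) / (2 * w + 1 : ℝ)) ^ 2 := by
        field_simp; norm_num
    _ ≤ _ := by linarith

theorem dat_pow_two {a : ℕ} (ha : 1 ≤ a) : ∀ m, a + 1 ≤ m →
    Dat (2 ^ a) (2 ^ a - 1) (((2 ^ a - 1 : ℕ) : ℝ) / 2 ^ a) ((2 ^ a - 1 : ℕ) : ℝ) m := by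
  classical
  obtain ⟨hA0, hA, hwt, hwt0⟩ := simplex_code a ha
  set A : Finset (Fin a → ZMod 2) := univ.erase 0 with hAdef
  have hpa : 2 * 2 ^ (a - 1) = 2 ^ a := by
    rw [← pow_succ']; congr 1; omega
  have hmax : ∀ φ, wt A φ ≤ 2 ^ (a - 1) := by
    intro φ
    by_cases h : φ = 0
    · rw [h, hwt0]; exact Nat.zero_le _
    · rw [hwt φ h]
  have hN : (univ.filter fun φ : Fin a → ZMod 2 => wt A φ = 2 ^ (a - 1)).card = 2 ^ a - 1 := by
    rw [← hA]
    congr 1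
    ext φ
    rw [hAdef]
    simp only [Finset.mem_filter, Finset.mem_univ, true_and, Finset.mem_erase, and_true]
    constructor
    · rintro h rfl
      rw [hAdef] at hwt0
      rw [hwt0] at h
      have : 0 < 2 ^ (a - 1) := by positivity
      omega
    · intro h
      exact hwt φ h
  have hD := fun m hm => dat_even A hA0 (w := 2 ^ (a - 1)) Nat.one_le_two_pow (by omega) hmax m hm
  rw [hpa, hN, hA, Fintype.card_fin] at hD
  exact hD

/-- powers of two -/
theorem pow_two_bound {a : ℕ} (ha : 1 ≤ a) {c : ℝ} (hc : c < 3 / (32 * (2 ^ a : ℝ) ^ 2)) :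
    ∀ᶠ n : ℕ in atTop, c * (n : ℝ) ^ 2 ≤ N (2 ^ a) n := by
  have h1 : 1 < 2 ^ a := Nat.one_lt_two_pow (by omega)
  have hr : ((2 ^ a - 1 : ℕ) : ℝ) = 2 ^ a - 1 := by
    rw [Nat.cast_sub h1.le]; simp
  have h1r : (0 : ℝ) < 2 ^ a - 1 := by
    have : (1 : ℝ) < 2 ^ a := by exact_mod_cast h1
    linarith
  refine asym (κ := 2 ^ a - 1) (by omega) (θ := ((2 ^ a - 1 : ℕ) : ℝ) / 2 ^ a) (by rw [hr]; positivity)
    (dat_pow_two ha) (lt_of_lt_of_le hc (le_of_eq ?_))
  rw [hr]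
  field_simp

/-- powers of two, along a sequence -/
theorem pow_two_seq {a : ℕ} (ha : 1 ≤ a) {c : ℝ} (hc : c < 1 / (2 * (2 ^ a : ℝ) ^ 2)) :
    ∀ᶠ m : ℕ in atTop, c * (((2 ^ a - 1) * (2 ^ m + 1) * 2 ^ m : ℕ) : ℝ) ^ 2 ≤
      N (2 ^ a) ((2 ^ a - 1) * (2 ^ m + 1) * 2 ^ m) := by
  have h1 : 1 < 2 ^ a := Nat.one_lt_two_pow (by omega)
  have hr : ((2 ^ a - 1 : ℕ) : ℝ) = 2 ^ a - 1 := by
    rw [Nat.cast_sub h1.le]; simp
  have h1r : (0 : ℝ) < 2 ^ a - 1 := by
    have : (1 : ℝ) < 2 ^ a := by exact_mod_cast h1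
    linarith
  refine asym_seq (κ := 2 ^ a - 1) (by omega) (θ := ((2 ^ a - 1 : ℕ) : ℝ) / 2 ^ a) (by rw [hr]; positivity)
    (dat_pow_two ha) (lt_of_lt_of_le hc (le_of_eq ?_))
  rw [hr]
  field_simp

/-- every `t` -/
theorem all_bound {t : ℕ} (ht : 2 ≤ t) :
    ∀ᶠ n : ℕ in atTop, (n : ℝ) ^ 2 / (6144 * (t : ℝ) ^ 2) ≤ N t n := by
  have ht' : (2 : ℝ) ≤ t := by exact_mod_cast ht
  have key : ∀ᶠ n : ℕ in atTop, 1 / (6144 * (t : ℝ) ^ 2) * (n : ℝ) ^ 2 ≤ N t n := by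
    rcases Nat.even_or_odd' t with ⟨w, rfl | rfl⟩
    · refine even_bound (by omega) ?_
      push_cast
      rw [div_lt_div_iff₀ (by push_cast at ht'; positivity) (by push_cast at ht'; positivity)]
      have : (0 : ℝ) < (2 * (w : ℝ)) ^ 2 := by push_cast at ht'; positivity
      linarith
    · obtain ⟨v, rfl⟩ : ∃ v, w = v + 1 := ⟨w - 1, by omega⟩
      have e : 2 * (v + 1) + 1 = 2 * v + 3 := by ring
      rw [e]
      refine odd_bound v ?_
      push_cast
      rw [div_lt_div_iff₀ (by positivity) (by positivity)]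
      have hv : (0 : ℝ) ≤ v := Nat.cast_nonneg v
      nlinarith
  filter_upwards [key] with n hn
  calc (n : ℝ) ^ 2 / (6144 * (t : ℝ) ^ 2) = 1 / (6144 * (t : ℝ) ^ 2) * (n : ℝ) ^ 2 := by ring
    _ ≤ _ := hn

end KTT
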