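import Pool.Agent.Work.KTT.Trace

/-!
# Pencils of conics in characteristic two (Denniston's construction)
-/

set_option autoImplicit false

open Finset

namespace KTT

variable {F : Type*} [Field F] [Fintype F] [DecidableEq F] [Algebra (ZMod 2) F]

/-- the quadratic form `x² + xy + d y²` -/
def Qf (d : F) (p : F × F) : F := p.1 ^ 2 + p.1 * p.2 + d * p.2 ^ 2

omit [Fintype F] [DecidableEq F] in
theorem Qf_add (d : F) (p q : F × F) : Qf d (p + q) = Qf d p + Qf d q + bf p q := by
  have := charP2 (F := F)
  unfold Qf bf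
  simp only [Prod.fst_add, Prod.snd_add]
  have h2 : (2 : F) = 0 := CharTwo.two_eq_zero
  linear_combination (p.1 * q.1 + d * p.2 * q.2) * h2

omit [Fintype F] [DecidableEq F] [Algebra (ZMod 2) F] in
theorem Qf_smul (d c : F) (p : F × F) : Qf d (c • p) = c ^ 2 * Qf d p := by
  unfold Qf; simp only [Prod.smul_fst, Prod.smul_snd, smul_eq_mul]; ring

theorem Qf_ne_zero {d : F} (hd : tr d = 1) {p : F × F} (hp : p ≠ 0) : Qf d p ≠ 0 := by
  have := charP2 (F := F)
  intro h
  by_cases h2 : p.2 = 0
  · unfold Qf at h
    rw [h2] at h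
    have h1 : p.1 = 0 := by simpa using h
    exact hp (Prod.ext h1 h2)
  · have h3 : (p.1 / p.2) ^ 2 + p.1 / p.2 = d := by
      unfold Qf at h
      have h4 : p.1 ^ 2 + p.1 * p.2 = d * p.2 ^ 2 := eq_of_add_eq_zero' h
      field_simp
      linear_combination h4
    have h5 := card_sq_add d
    rw [if_neg (by rw [hd]; exact one_ne_zero), Finset.card_eq_zero,
      Finset.filter_eq_empty_iff] at h5
    exact h5 (Finset.mem_univ _) h3

omit [Fintype F] [DecidableEq F] [Algebra (ZMod 2) F] in
theorem bf_zero_right (p : F × F) : bf p 0 = 0 := by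
  unfold bf; simp

/-- number of points of a conic of the pencil on a line that misses the origin -/
theorem card_conic_line {d : F} (hd : tr d = 1) {w : F × F} (hw : w ≠ 0) (a : F) :
    (univ.filter fun p : F × F => bf w p = 1 ∧ Qf d p = a).card =
      if tr (a * Qf d w) = 1 then 2 else 0 := by
  have := charP2 (F := F)
  have hQw := Qf_ne_zero hd hw
  obtain ⟨p0, hp0⟩ : ∃ p0 : F × F, bf w p0 = 1 := by
    by_cases h1 : w.1 = 0
    · have h2 : w.2 ≠ 0 := fun h2 => hw (Prod.ext h1 h2)
      refine ⟨(w.2⁻¹, 0), ?_⟩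
      unfold bf; simp [h2]
    · refine ⟨(0, w.1⁻¹), ?_⟩
      unfold bf; simp [h1]
  have hcount : ∀ a : F, (univ.filter fun p : F × F => bf w p = 1 ∧ Qf d p = a).card =
      if tr (Qf d w * Qf d p0) + tr (a * Qf d w) = 0 then 2 else 0 := by
    intro a
    have h1 := card_sq_add (Qf d w * (Qf d p0 + a))
    have h2 : tr (Qf d w * (Qf d p0 + a)) = tr (Qf d w * Qf d p0) + tr (a * Qf d w) := by
      rw [mul_add, tr_add, mul_comm a]
    rw [← h2, ← h1]
    symm
    have hval : ∀ s : F, Qf d (p0 + (s / Qf d w) • w) = Qf d p0 + (s ^ 2 + s) / Qf d w := by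
      intro s
      rw [Qf_add, Qf_smul, bf_comm p0, bf_smul_left, hp0]
      field_simp
      ring
    refine Finset.card_bij (fun s _ => p0 + (s / Qf d w) • w) ?_ ?_ ?_
    · intro s hs
      rw [Finset.mem_filter] at hs ⊢
      refine ⟨Finset.mem_univ _, ?_, ?_⟩
      · rw [bf_add_right, hp0, bf_comm, bf_smul_left, bf_self, mul_zero, add_zero]
      · rw [hval, hs.2, mul_div_cancel_left₀ _ hQw]
        have : Qf d p0 + (Qf d p0 + a) = (Qf d p0 + Qf d p0) + a := by ring
        rw [this, CharTwo.add_self_eq_zero, zero_add]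
    · intro s _ s' _ h
      have h3 := add_left_cancel h
      have h4 := smul_left_injective F hw h3
      rw [div_left_inj' hQw] at h4
      exact h4
    · intro p hp
      rw [Finset.mem_filter] at hp
      obtain ⟨-, hb, hq⟩ := hp
      have h3 : bf (p0 + p) w = 0 := by
        rw [bf_comm, bf_add_right, hp0, hb, CharTwo.add_self_eq_zero]
      have h4 := ratio_smul hw h3
      have h5 : p = p0 + ((ratio (p0 + p) w * Qf d w) / Qf d w) • w := by
        rw [mul_div_cancel_right₀ _ hQw, ← h4, ← add_assoc]
        refine Prod.ext ?_ ?_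
        · simp only [Prod.fst_add]; rw [CharTwo.add_self_eq_zero, zero_add]
        · simp only [Prod.snd_add]; rw [CharTwo.add_self_eq_zero, zero_add]
      refine ⟨ratio (p0 + p) w * Qf d w, ?_, h5.symm⟩
      rw [Finset.mem_filter]
      refine ⟨Finset.mem_univ _, ?_⟩
      have h6 := hval (ratio (p0 + p) w * Qf d w)
      rw [← h5, hq] at h6
      rw [h6]
      have h7 : ∀ X Y : F, X = Qf d w * (Qf d p0 + (Qf d p0 + X / Qf d w)) := by
        intro X _
        rw [← add_assoc, CharTwo.add_self_eq_zero, zero_add]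
        field_simp
      exact h7 _ 0
  have h0 := hcount 0
  have hempty : (univ.filter fun p : F × F => bf w p = 1 ∧ Qf d p = 0).card = 0 := by
    rw [Finset.card_eq_zero, Finset.filter_eq_empty_iff]
    rintro p _ ⟨h1, h2⟩
    by_cases hp : p = 0
    · rw [hp, bf_zero_right] at h1
      exact zero_ne_one h1
    · exact Qf_ne_zero hd hp h2
  rw [hempty, zero_mul, tr_zero, add_zero] at h0
  have h1 : tr (Qf d w * Qf d p0) = 1 := by
    have h2 : tr (Qf d w * Qf d p0) ≠ 0 := by
      intro h3
      rw [if_pos h3] at h0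
      exact absurd h0 (by norm_num)
    have h4 : ∀ z : ZMod 2, z ≠ 0 → z = 1 := by decide
    exact h4 _ h2
  rw [hcount, h1]
  have h5 : ∀ z : ZMod 2, (1 + z = 0) ↔ z = 1 := by decide
  simp only [h5]

/-- the union of the conics `Q = a`, `a ∈ A` -/
def arc (d : F) (A : Finset F) : Finset (F × F) := univ.filter fun p => Qf d p ∈ A

theorem card_arc_line {d : F} (hd : tr d = 1) (A : Finset F) {w : F × F} (hw : w ≠ 0) :
    ((arc d A).filter fun p => bf w p = 1).card =
      2 * (A.filter fun a => tr (a * Qf d w) = 1).card := by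
  have h1 : ((arc d A).filter fun p => bf w p = 1).card =
      ∑ a ∈ A, (univ.filter fun p : F × F => bf w p = 1 ∧ Qf d p = a).card := by
    rw [Finset.card_eq_sum_card_fiberwise (f := Qf d) (t := A)]
    · refine Finset.sum_congr rfl fun a ha => ?_
      congr 1
      ext p
      simp only [arc, Finset.mem_filter, Finset.mem_univ, true_and]
      constructor
      · rintro ⟨⟨_, h1⟩, h2⟩; exact ⟨h1, h2⟩
      · rintro ⟨h1, h2⟩; exact ⟨⟨by rw [h2]; exact ha, h1⟩, h2⟩
    · intro p hp
      simp only [arc, Finset.coe_filter, Finset.mem_filter, Finset.mem_univ, true_and,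
        Set.mem_ofPred_eq] at hp
      exact hp.1
  rw [h1, Finset.sum_congr rfl fun a _ => card_conic_line hd hw a, Finset.sum_ite,
    Finset.sum_const_zero, add_zero, Finset.sum_const, smul_eq_mul, mul_comm]

theorem card_arc_line_zero {d : F} (hd : tr d = 1) {A : Finset F} {v : F × F}
    (hv : v ≠ 0) : ((arc d A).filter fun p => bf v p = 0).card ≤ A.card := by
  have := charP2 (F := F)
  refine Finset.card_le_card_of_injOn (Qf d) ?_ ?_
  · intro p hp
    simp only [arc, Finset.coe_filter, Finset.mem_filter, Finset.mem_univ, true_and,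
        Set.mem_ofPred_eq] at hp
    exact hp.1
  · intro p hp p' hp' h
    simp only [arc, Finset.coe_filter, Finset.mem_filter, Finset.mem_univ, true_and,
        Set.mem_ofPred_eq] at hp hp'
    have h1 := ratio_smul hv (v := p) (by rw [bf_comm]; exact hp.2)
    have h2 := ratio_smul hv (v := p') (by rw [bf_comm]; exact hp'.2)
    rw [h1, h2, Qf_smul, Qf_smul] at h
    have h3 := mul_right_cancel₀ (Qf_ne_zero hd hv) h
    have h4 : ratio p v = ratio p' v := by
      have h5 : (ratio p v + ratio p' v) ^ 2 = 0 := by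
        rw [CharTwo.add_sq, h3, CharTwo.add_self_eq_zero]
      exact eq_of_add_eq_zero' (pow_eq_zero_iff (two_ne_zero) |>.1 h5)
    rw [h1, h2, h4]

theorem card_conic_le {d : F} {a : F} (ha : a ≠ 0) :
    (univ.filter fun p : F × F => Qf d p = a).card ≤ Fintype.card F + 1 := by
  have := charP2 (F := F)
  have h0 : ∀ p : F × F, Qf d p = a → p ≠ 0 := by
    rintro p h rfl
    apply ha
    rw [← h]; unfold Qf; simp
  have h1 : (univ.filter fun p : F × F => Qf d p = a).card ≤ (univ : Finset (Option F)).card := by
    refine Finset.card_le_card_of_injOn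
      (fun w => if w.1 = 0 then none else some (w.2 / w.1)) (fun _ _ => Finset.mem_coe.2 (Finset.mem_univ _)) ?_
    intro p hp p' hp' h
    simp only [Finset.coe_filter, Finset.mem_univ, true_and, Set.mem_ofPred_eq] at hp hp'
    have hpar : bf p p' = 0 := by
      simp only at h
      unfold bf
      by_cases h1 : p.1 = 0 <;> by_cases h2 : p'.1 = 0
      · rw [h1, h2]; ring
      · rw [if_pos h1, if_neg h2] at h; exact absurd h (by simp)
      · rw [if_neg h1, if_pos h2] at h; exact absurd h (by simp)
      · rw [if_neg h1, if_neg h2, Option.some.injEq] at h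
        rw [div_eq_div_iff h1 h2] at h
        rw [← mul_comm p.2, h, mul_comm p'.2]
        exact CharTwo.add_self_eq_zero _
    have h2 := ratio_smul (h0 p' hp') hpar
    have h3 : ratio p p' = 1 := by
      have h4 : ratio p p' ^ 2 * a = a := by
        have := Qf_smul d (ratio p p') p'
        rw [← h2, hp, hp'] at this
        exact this.symm
      have h5 : ratio p p' ^ 2 = 1 := by
        exact mul_right_cancel₀ ha (by rw [h4, one_mul])
      have h6 : (ratio p p' + 1) ^ 2 = 0 := by
        rw [CharTwo.add_sq, h5, one_pow, CharTwo.add_self_eq_zero]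
      exact eq_of_add_eq_zero' (pow_eq_zero_iff (two_ne_zero) |>.1 h6)
    rw [h2, h3, one_smul]
  rwa [Finset.card_univ, Fintype.card_option] at h1

theorem card_arc_le {d : F} {A : Finset F} (hA : (0 : F) ∉ A) :
    (arc d A).card ≤ A.card * (Fintype.card F + 1) := by
  have h1 : (arc d A).card ≤ ∑ a ∈ A, (univ.filter fun p : F × F => Qf d p = a).card := by
    rw [Finset.card_eq_sum_card_fiberwise (f := Qf d) (t := A)]
    · refine Finset.sum_le_sum fun a _ => Finset.card_le_card ?_
      intro p
      simp only [arc, Finset.mem_filter, Finset.mem_univ, true_and]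
      exact fun h => h.2
    · intro p hp
      simp only [arc, Finset.coe_filter, Finset.mem_univ, true_and, Set.mem_ofPred_eq] at hp
      exact hp
  refine h1.trans ?_
  refine (Finset.sum_le_sum fun a ha => card_conic_le (d := d) (fun h => hA (h ▸ ha))).trans ?_
  rw [Finset.sum_const, smul_eq_mul]

end KTT
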