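import Pool.Agent.Work.KTT.Odd

/-!
# Passage to all `n`
-/

set_option autoImplicit false

open Finset Filter Topology

namespace KTT

/-- data for a fixed `t`: planar sets over `GF(2^m)` -/
structure Dat (t κ : ℕ) (θ C : ℝ) (m : ℕ) : Prop where
  ex : ∃ cK T : ℕ, cK ≤ κ * (2 ^ m + 1) ∧ T ≤ (2 ^ m) ^ 2 ∧
    θ * (2 ^ m : ℝ) ^ 2 - C * 2 ^ m ≤ T ∧
    ∀ k n : ℕ, k * (cK * 2 ^ m) ≤ n →
      k * 2 ^ m * T ^ 2 ≤ (2 ^ m + 1) * (2 * N t n + k * 2 ^ m * T)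

theorem g_tendsto (θ C : ℝ) : Tendsto (fun q : ℝ => q / (q + 1) ^ 3 * (θ * q - C) ^ 2 - q / (q + 1) ^ 2)
    atTop (𝓝 (θ ^ 2)) := by
  have hinv : Tendsto (fun q : ℝ => (q + 1)⁻¹) atTop (𝓝 0) :=
    tendsto_inv_atTop_zero.comp (tendsto_atTop_add_const_right _ _ tendsto_id)
  have h1 : Tendsto (fun q : ℝ => (1 - (q + 1)⁻¹) * (θ * (1 - (q + 1)⁻¹) - C * (q + 1)⁻¹) ^ 2 -
      ((q + 1)⁻¹ * (1 - (q + 1)⁻¹))) atTop
      (𝓝 ((1 - 0) * (θ * (1 - 0) - C * 0) ^ 2 - (0 * (1 - 0)))) :=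
    (((tendsto_const_nhds.sub hinv).mul ((((tendsto_const_nhds.sub hinv).const_mul θ).sub
      (hinv.const_mul C)).pow 2))).sub (hinv.mul (tendsto_const_nhds.sub hinv))
  have h2 : ((1 : ℝ) - 0) * (θ * (1 - 0) - C * 0) ^ 2 - (0 * (1 - 0)) = θ ^ 2 := by ring
  rw [h2] at h1
  refine h1.congr' ?_
  filter_upwards [eventually_gt_atTop 0] with q hq
  have : q + 1 ≠ 0 := by positivity
  field_simp
  ring

theorem asym {t κ : ℕ} (hκ : 1 ≤ κ) {θ C : ℝ} (hθ : 0 < θ) {m0 : ℕ}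
    (H : ∀ m, m0 ≤ m → Dat t κ θ C m) {c : ℝ} (hc : c < 3 / 32 * (θ / κ) ^ 2) :
    ∀ᶠ n : ℕ in atTop, c * (n : ℝ) ^ 2 ≤ N t n := by
  have hκ' : (0 : ℝ) < κ := by exact_mod_cast hκ
  -- choose `m1`
  have h1 : 32 / 3 * c * (κ : ℝ) ^ 2 < θ ^ 2 := by
    rw [div_pow, ← mul_div_assoc, lt_div_iff₀ (by positivity)] at hc
    linarith
  have hpow : Tendsto (fun m : ℕ => (2 : ℝ) ^ m) atTop atTop :=
    tendsto_pow_atTop_atTop_of_one_lt (by norm_num)
  have h2 := ((g_tendsto θ C).comp hpow).eventually_const_lt h1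
  have h3 := hpow.eventually_ge_atTop (C / θ)
  obtain ⟨m1, hm1⟩ := (h2.and h3).exists_forall_of_atTop
  set M : ℕ → ℕ := fun m => κ * (2 ^ m + 1) * 2 ^ m with hM
  rw [Filter.eventually_atTop]
  refine ⟨M (max m0 m1), fun n hn => ?_⟩
  classical
  have hMgt : ∀ m, m < M m := by
    intro m
    have : m < 2 ^ m := Nat.lt_two_pow_self
    calc m < 2 ^ m := this
      _ = 1 * 1 * 2 ^ m := by ring
      _ ≤ κ * (2 ^ m + 1) * 2 ^ m := by
        apply Nat.mul_le_mul_right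
        exact Nat.mul_le_mul hκ (by omega)
  set m := Nat.findGreatest (fun m => M m ≤ n) n with hmdef
  have hmle : max m0 m1 ≤ m := Nat.le_findGreatest ((hMgt _).le.trans hn) hn
  have hPm : M m ≤ n := Nat.findGreatest_spec (P := fun m => M m ≤ n) ((hMgt _).le.trans hn) hn
  have hmn : m < n := (hMgt m).trans_le hPm
  have hnP : n < M (m + 1) := by
    have := Nat.findGreatest_is_greatest (P := fun m => M m ≤ n) (n := n) (k := m + 1) (by omega)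
      (by omega)
    omega
  obtain ⟨cK, T, hcK, hT1, hT2, hmain⟩ := (H m ((le_max_left _ _).trans hmle)).ex
  obtain ⟨hg, hCθ⟩ := hm1 m ((le_max_right _ _).trans hmle)
  -- choose `k`
  have hMpos : 0 < M m := by simp only [hM]; positivity
  set k := n / M m with hk
  have hk1 : k * M m ≤ n := Nat.div_mul_le_self _ _
  have hk2 : n < (k + 1) * M m := by
    have := Nat.lt_div_mul_add (a := n) hMpos
    rw [← hk] at this
    linarith
  have hkpos : 1 ≤ k := (Nat.one_le_div_iff hMpos).2 hPm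
  have hk3 : k ≤ 3 := by
    have h4 : M (m + 1) ≤ 4 * M m := by
      simp only [hM]
      rw [pow_succ]
      nlinarith [Nat.pos_of_ne_zero (pow_ne_zero m (two_ne_zero (α := ℕ))), Nat.mul_le_mul_right (κ * 2 ^ m) (Nat.zero_le (2 ^ m))]
    have h5 : k * M m < 4 * M m := hk1.trans_lt (hnP.trans_le h4)
    have := Nat.lt_of_mul_lt_mul_right h5
    omega
  have hkk : (3 : ℝ) / 16 * ((k : ℝ) + 1) ^ 2 ≤ k := by
    have : k = 1 ∨ k = 2 ∨ k = 3 := by omega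
    rcases this with h | h | h <;> rw [h] <;> norm_num
  have hmain2 := hmain k n (by
    refine le_trans ?_ hk1
    apply Nat.mul_le_mul_left
    simp only [hM]
    exact Nat.mul_le_mul_right _ hcK)
  have hmain3 : (k : ℝ) * 2 ^ m * (T : ℝ) ^ 2 ≤
      ((2 : ℝ) ^ m + 1) * (2 * N t n + k * 2 ^ m * T) := by exact_mod_cast hmain2
  set q : ℝ := 2 ^ m with hq
  have hq0 : 0 < q := by positivity
  have hT1' : (T : ℝ) ≤ q ^ 2 := by rw [hq]; exact_mod_cast hT1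
  have hk0 : (0 : ℝ) < k := by exact_mod_cast hkpos
  have hnr : (n : ℝ) ≤ (k + 1) * (κ * (q + 1) * q) := by
    have h5 : (n : ℝ) ≤ ((k + 1) * M m : ℕ) := by exact_mod_cast hk2.le
    simp only [hM] at h5
    push_cast at h5
    rw [hq]; exact h5
  simp only [Function.comp] at hg
  -- the main estimate
  have hT3 : 0 ≤ θ * q - C := by
    rw [div_le_iff₀ hθ] at hCθ
    linarith
  have hT4 : (θ * q - C) * q ≤ T := by
    calc (θ * q - C) * q = θ * q ^ 2 - C * q := by ring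
      _ ≤ T := hT2
  have hT5 : ((θ * q - C) * q) ^ 2 ≤ (T : ℝ) ^ 2 :=
    pow_le_pow_left₀ (by positivity) hT4 2
  have e1 : (k : ℝ) * (q * ((θ * q - C) * q) ^ 2 - (q + 1) * (q * q ^ 2)) ≤
      (q + 1) * (2 * N t n) := by
    have e2 : (k : ℝ) * q * ((θ * q - C) * q) ^ 2 ≤ k * q * (T : ℝ) ^ 2 :=
      mul_le_mul_of_nonneg_left hT5 (by positivity)
    have e3 : (q + 1) * ((k : ℝ) * q * T) ≤ (q + 1) * (k * q * q ^ 2) :=
      mul_le_mul_of_nonneg_left (mul_le_mul_of_nonneg_left hT1' (by positivity)) (by positivity)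
    nlinarith
  have e4 : (q * ((θ * q - C) * q) ^ 2 - (q + 1) * (q * q ^ 2)) =
      (q + 1) * ((q * (q + 1)) ^ 2 *
        (q / (q + 1) ^ 3 * (θ * q - C) ^ 2 - q / (q + 1) ^ 2)) := by
    field_simp
  rw [e4] at e1
  have e5 : (k : ℝ) * ((q * (q + 1)) ^ 2 *
        (q / (q + 1) ^ 3 * (θ * q - C) ^ 2 - q / (q + 1) ^ 2)) ≤ 2 * N t n := by
    have : (q + 1) * ((k : ℝ) * ((q * (q + 1)) ^ 2 *
        (q / (q + 1) ^ 3 * (θ * q - C) ^ 2 - q / (q + 1) ^ 2))) ≤ (q + 1) * (2 * N t n) := by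
      calc _ = (k : ℝ) * ((q + 1) * ((q * (q + 1)) ^ 2 *
        (q / (q + 1) ^ 3 * (θ * q - C) ^ 2 - q / (q + 1) ^ 2))) := by ring
        _ ≤ _ := e1
    exact le_of_mul_le_mul_left this (by positivity)
  have e6 : (k : ℝ) * ((q * (q + 1)) ^ 2 * (32 / 3 * c * (κ : ℝ) ^ 2)) ≤ 2 * N t n := by
    refine le_trans ?_ e5
    exact mul_le_mul_of_nonneg_left (mul_le_mul_of_nonneg_left hg.le (by positivity)) hk0.le
  rcases le_or_gt c 0 with hc0 | hc0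
  · have : c * (n : ℝ) ^ 2 ≤ 0 := mul_nonpos_of_nonpos_of_nonneg hc0 (by positivity)
    exact this.trans (Nat.cast_nonneg _)
  · have e7 : (n : ℝ) ^ 2 ≤ (((k : ℝ) + 1) * (κ * (q + 1) * q)) ^ 2 :=
      pow_le_pow_left₀ (Nat.cast_nonneg _) hnr 2
    have e8 : 3 / 16 * (((k : ℝ) + 1) * (κ * (q + 1) * q)) ^ 2 ≤
        k * (κ * (q + 1) * q) ^ 2 := by
      rw [mul_pow, ← mul_assoc]
      exact mul_le_mul_of_nonneg_right hkk (by positivity)
    have e9 : c * (n : ℝ) ^ 2 ≤ c * (16 / 3 * (k * (κ * (q + 1) * q) ^ 2)) := by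
      apply mul_le_mul_of_nonneg_left _ hc0.le
      linarith
    refine e9.trans ?_
    have e10 : c * (16 / 3 * ((k : ℝ) * (κ * (q + 1) * q) ^ 2)) =
        1 / 2 * ((k : ℝ) * ((q * (q + 1)) ^ 2 * (32 / 3 * c * (κ : ℝ) ^ 2))) := by ring
    rw [e10]
    linarith

/-- along the natural sequence of vertex counts -/
theorem asym_seq {t κ : ℕ} (hκ : 1 ≤ κ) {θ C : ℝ} (hθ : 0 < θ) {m0 : ℕ}
    (H : ∀ m, m0 ≤ m → Dat t κ θ C m) {c : ℝ} (hc : c < 1 / 2 * (θ / κ) ^ 2) :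
    ∀ᶠ m : ℕ in atTop, c * ((κ * (2 ^ m + 1) * 2 ^ m : ℕ) : ℝ) ^ 2 ≤
      N t (κ * (2 ^ m + 1) * 2 ^ m) := by
  have hκ' : (0 : ℝ) < κ := by exact_mod_cast hκ
  have h1 : 2 * c * (κ : ℝ) ^ 2 < θ ^ 2 := by
    rw [div_pow, ← mul_div_assoc, lt_div_iff₀ (by positivity)] at hc
    linarith
  have hpow : Tendsto (fun m : ℕ => (2 : ℝ) ^ m) atTop atTop :=
    tendsto_pow_atTop_atTop_of_one_lt (by norm_num)
  have h2 := ((g_tendsto θ C).comp hpow).eventually_const_lt h1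
  have h3 := hpow.eventually_ge_atTop (C / θ)
  filter_upwards [h2, h3, eventually_ge_atTop m0] with m hg hCθ hm
  obtain ⟨cK, T, hcK, hT1, hT2, hmain⟩ := (H m hm).ex
  have hmain2 := hmain 1 (κ * (2 ^ m + 1) * 2 ^ m) (by
    rw [one_mul]
    exact Nat.mul_le_mul_right _ hcK)
  set n := κ * (2 ^ m + 1) * 2 ^ m with hn
  have hmain3 : (2 : ℝ) ^ m * (T : ℝ) ^ 2 ≤
      ((2 : ℝ) ^ m + 1) * (2 * N t n + 2 ^ m * T) := by
    have h5 : ((1 * 2 ^ m * T ^ 2 : ℕ) : ℝ) ≤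
      (((2 ^ m + 1) * (2 * N t n + 1 * 2 ^ m * T) : ℕ) : ℝ) := by exact_mod_cast hmain2
    push_cast at h5
    simpa using h5
  have hnr : (n : ℝ) = κ * (2 ^ m + 1) * 2 ^ m := by
    rw [hn]; push_cast; ring
  rw [hnr]
  set q : ℝ := 2 ^ m with hq
  have hq0 : 0 < q := by positivity
  have hT1' : (T : ℝ) ≤ q ^ 2 := by rw [hq]; exact_mod_cast hT1
  simp only [Function.comp] at hg
  have hT3 : 0 ≤ θ * q - C := by
    rw [div_le_iff₀ hθ] at hCθ
    linarith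
  have hT4 : (θ * q - C) * q ≤ T := by
    calc (θ * q - C) * q = θ * q ^ 2 - C * q := by ring
      _ ≤ T := hT2
  have hT5 : ((θ * q - C) * q) ^ 2 ≤ (T : ℝ) ^ 2 :=
    pow_le_pow_left₀ (by positivity) hT4 2
  have e1 : (q * ((θ * q - C) * q) ^ 2 - (q + 1) * (q * q ^ 2)) ≤
      (q + 1) * (2 * N t n) := by
    have e2 : q * ((θ * q - C) * q) ^ 2 ≤ q * (T : ℝ) ^ 2 :=
      mul_le_mul_of_nonneg_left hT5 (by positivity)
    have e3 : (q + 1) * (q * T) ≤ (q + 1) * (q * q ^ 2) :=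
      mul_le_mul_of_nonneg_left (mul_le_mul_of_nonneg_left hT1' (by positivity)) (by positivity)
    nlinarith
  have e4 : (q * ((θ * q - C) * q) ^ 2 - (q + 1) * (q * q ^ 2)) =
      (q + 1) * ((q * (q + 1)) ^ 2 *
        (q / (q + 1) ^ 3 * (θ * q - C) ^ 2 - q / (q + 1) ^ 2)) := by
    field_simp
  rw [e4] at e1
  have e5 := le_of_mul_le_mul_left e1 (by positivity)
  have e6 : (q * (q + 1)) ^ 2 * (2 * c * (κ : ℝ) ^ 2) ≤ 2 * N t n := by
    refine le_trans ?_ e5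
    exact mul_le_mul_of_nonneg_left hg.le (by positivity)
  nlinarith

end KTT
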