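import Mathlib

/-!
# Copies of `K_{t,t}` in `K_{2,t+1}`-free graphs: definitions and counting lemmas
-/

set_option autoImplicit false

open Finset SimpleGraph

namespace KTT

/-- The graph has no `K_{2,t+1}`. -/
def KFree {V : Type*} (G : SimpleGraph V) (t : ℕ) : Prop :=
  (completeBipartiteGraph (Fin 2) (Fin (t + 1))).Free G

/-- `N t n = ex(n, K_{t,t}, K_{2,t+1})`: the largest number of (unlabelled, not necessarily induced)
copies of `K_{t,t}` in an `n`-vertex graph without `K_{2,t+1}`. -/
noncomputable def N (t n : ℕ) : ℕ :=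
  sSup {k | ∃ G : SimpleGraph (Fin n), KFree G t ∧
    G.copyCount (completeBipartiteGraph (Fin t) (Fin t)) = k}

theorem kfree_iff {V : Type*} [Fintype V] (G : SimpleGraph V) (t : ℕ) :
    KFree G t ↔ ∀ u v : V, u ≠ v → ∀ S : Finset V, (∀ x ∈ S, G.Adj u x ∧ G.Adj v x) → S.card ≤ t := by
  classical
  unfold KFree SimpleGraph.Free
  rw [completeBipartiteGraph_isContained_iff]
  constructor
  · intro h u v huv S hS
    by_contra hlt
    push Not at hlt
    obtain ⟨S', hS', hcard⟩ := Finset.exists_subset_card_eq (s := S) (n := t + 1) (by omega)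
    apply h
    refine ⟨{u, v}, S', by simp [Finset.card_pair huv], by simp [hcard], ?_⟩
    intro a ha b hb
    have hb' := hS b (hS' (by simpa using hb))
    have ha' : a = u ∨ a = v := by simpa using ha
    rcases ha' with rfl | rfl
    · exact hb'.1
    · exact hb'.2
  · rintro h ⟨L, R, hL, hR, hc⟩
    rw [Fintype.card_fin] at hL hR
    obtain ⟨u, v, huv, rfl⟩ := Finset.card_eq_two.1 hL
    have := h u v huv R (fun x hx => ⟨hc (by simp) (by simpa using hx), hc (by simp) (by simpa using hx)⟩)
    omega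

/-- ordered pairs of distinct non-adjacent vertices of a subgraph -/
noncomputable def offPairs {V : Type*} [Fintype V] (G : SimpleGraph V) (H : G.Subgraph) :
    Finset (V × V) := by
  classical exact univ.filter fun p => p.1 ∈ H.verts ∧ p.2 ∈ H.verts ∧ p.1 ≠ p.2 ∧ ¬ H.Adj p.1 p.2

theorem mem_offPairs {V : Type*} [Fintype V] (G : SimpleGraph V) (H : G.Subgraph) (p : V × V) :
    p ∈ offPairs G H ↔ p.1 ∈ H.verts ∧ p.2 ∈ H.verts ∧ p.1 ≠ p.2 ∧ ¬ H.Adj p.1 p.2 := by
  classical
  simp [offPairs]

theorem card_offPairs {V : Type*} [Fintype V] (G : SimpleGraph V) (t : ℕ) (H : G.Subgraph)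
    (e : completeBipartiteGraph (Fin t) (Fin t) ≃g H.coe) :
    (offPairs G H).card = 2 * t * (t - 1) := by
  classical
  have h1 : (offPairs G H).card =
      ((univ : Finset ((Fin t ⊕ Fin t) × (Fin t ⊕ Fin t))).filter
        fun p => p.1 ≠ p.2 ∧ ¬ (completeBipartiteGraph (Fin t) (Fin t)).Adj p.1 p.2).card := by
    symm
    refine Finset.card_bij (fun p _ => ((e p.1 : V), (e p.2 : V))) ?_ ?_ ?_
    · rintro ⟨a, b⟩ hab
      rw [Finset.mem_filter] at hab
      rw [mem_offPairs]
      refine ⟨(e a).2, (e b).2, ?_, ?_⟩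
      · intro h
        exact hab.2.1 (e.injective (Subtype.ext h))
      · intro h
        apply hab.2.2
        rw [← e.map_adj_iff]
        exact h
    · rintro ⟨a, b⟩ _ ⟨c, d⟩ _ h
      simp only [Prod.mk.injEq] at h
      exact Prod.ext (e.injective (Subtype.ext h.1)) (e.injective (Subtype.ext h.2))
    · rintro ⟨x, y⟩ hxy
      rw [mem_offPairs] at hxy
      obtain ⟨hx, hy, hne, hadj⟩ := hxy
      refine ⟨(e.symm ⟨x, hx⟩, e.symm ⟨y, hy⟩), ?_, by simp⟩
      rw [Finset.mem_filter]
      refine ⟨Finset.mem_univ _, ?_, ?_⟩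
      · intro h
        exact hne (congrArg Subtype.val (e.symm.injective h))
      · intro h
        rw [← e.map_adj_iff] at h
        simp only [RelIso.apply_symm_apply] at h
        exact hadj h
  rw [h1]
  have h2 : ((univ : Finset ((Fin t ⊕ Fin t) × (Fin t ⊕ Fin t))).filter
        fun p => p.1 ≠ p.2 ∧ ¬ (completeBipartiteGraph (Fin t) (Fin t)).Adj p.1 p.2) =
      ((univ : Finset (Fin t)).offDiag.image fun p => (Sum.inl p.1, Sum.inl p.2)) ∪
      ((univ : Finset (Fin t)).offDiag.image fun p => (Sum.inr p.1, Sum.inr p.2)) := by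
    ext ⟨a, b⟩
    rcases a with a | a <;> rcases b with b | b <;> simp
  have h3 : t * t - t = t * (t - 1) := by
    rw [Nat.mul_sub]; simp
  rw [h2, Finset.card_union_of_disjoint, Finset.card_image_of_injective,
    Finset.card_image_of_injective, Finset.offDiag_card]
  · simp only [Finset.card_univ, Fintype.card_fin]
    rw [h3]; ring
  · rintro ⟨a, b⟩ ⟨c, d⟩ h; simpa using h
  · rintro ⟨a, b⟩ ⟨c, d⟩ h; simpa using h
  · rw [Finset.disjoint_left]
    rintro ⟨a, b⟩ h h'
    simp only [Finset.mem_image, Prod.mk.injEq] at h h'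
    obtain ⟨_, _, h3, _⟩ := h
    obtain ⟨_, _, h4, _⟩ := h'
    rw [← h3] at h4
    exact absurd h4 (by simp)

/-- Every `K_{t,t}` accounts for `2 t (t-1)` ordered pairs, so a set of good ordered pairs bounds
the number of copies from below. -/
theorem le_copyCount {V : Type*} [Fintype V] (G : SimpleGraph V) (t : ℕ) (S : Finset (V × V))
    (hS : ∀ p ∈ S, p.1 ≠ p.2 ∧ ∃ A B : Finset V, A.card = t ∧ B.card = t ∧ p.1 ∈ A ∧ p.2 ∈ A ∧
      ∀ a ∈ A, ∀ b ∈ B, G.Adj a b) :
    S.card ≤ 2 * t * (t - 1) * G.copyCount (completeBipartiteGraph (Fin t) (Fin t)) := by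
  classical
  have key : ∀ p ∈ S, ∃ H : G.Subgraph,
      Nonempty (completeBipartiteGraph (Fin t) (Fin t) ≃g H.coe) ∧ p ∈ offPairs G H := by
    intro p hp
    obtain ⟨hne, A, B, hA, hB, h1, h2, hadj⟩ := hS p hp
    have hdis : ∀ x, x ∈ A → x ∉ B := fun x hx hx' => G.loopless.irrefl x (hadj x hx x hx')
    let H : G.Subgraph :=
      { verts := {x | x ∈ A ∨ x ∈ B}
        Adj := fun x y => (x ∈ A ∧ y ∈ B) ∨ (x ∈ B ∧ y ∈ A)
        adj_sub := by
          rintro x y (⟨hx, hy⟩ | ⟨hx, hy⟩)
          · exact hadj x hx y hy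
          · exact (hadj y hy x hx).symm
        edge_vert := by
          rintro x y (⟨hx, hy⟩ | ⟨hx, hy⟩)
          · exact Or.inl hx
          · exact Or.inr hx
        symm := ⟨by
          rintro x y (⟨hx, hy⟩ | ⟨hx, hy⟩)
          · exact Or.inr ⟨hy, hx⟩
          · exact Or.inl ⟨hy, hx⟩⟩ }
    refine ⟨H, ⟨?_⟩, ?_⟩
    · let eA : Fin t ≃ A := (A.equivFinOfCardEq hA).symm
      let eB : Fin t ≃ B := (B.equivFinOfCardEq hB).symm
      let f : Fin t ⊕ Fin t → H.verts := Sum.elim (fun i => ⟨eA i, Or.inl (eA i).2⟩)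
        (fun i => ⟨eB i, Or.inr (eB i).2⟩)
      have hf : Function.Bijective f := by
        constructor
        · rintro (a | a) (b | b) hab
          · have : (eA a : V) = eA b := congrArg (Subtype.val : H.verts → V) hab
            rw [eA.injective (Subtype.ext this)]
          · have : (eA a : V) = eB b := congrArg (Subtype.val : H.verts → V) hab
            exact absurd (this ▸ (eB b).2) (hdis _ (eA a).2)
          · have : (eB a : V) = eA b := congrArg (Subtype.val : H.verts → V) hab
            exact absurd (this ▸ (eB a).2) (hdis _ (eA b).2)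
          · have : (eB a : V) = eB b := congrArg (Subtype.val : H.verts → V) hab
            rw [eB.injective (Subtype.ext this)]
        · rintro ⟨x, hx | hx⟩
          · exact ⟨Sum.inl (eA.symm ⟨x, hx⟩), by simp [f]⟩
          · exact ⟨Sum.inr (eB.symm ⟨x, hx⟩), by simp [f]⟩
      refine ⟨Equiv.ofBijective f hf, ?_⟩
      intro a b
      rw [Equiv.ofBijective_apply, Equiv.ofBijective_apply]
      rcases a with a | a <;> rcases b with b | b <;>
        simp only [Subgraph.coe_adj, f, Sum.elim_inl, Sum.elim_inr, completeBipartiteGraph_adj,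
          Sum.isLeft_inl, Sum.isRight_inl, Sum.isLeft_inr, Sum.isRight_inr, H]
      · simp [hdis _ (eA a).2, hdis _ (eA b).2]
      · simp
      · simp
      · have h3 : ∀ i, (eB i : V) ∉ A := fun i hi => hdis _ hi (eB i).2
        simp [h3]
    · rw [mem_offPairs]
      refine ⟨Or.inl h1, Or.inl h2, hne, ?_⟩
      rintro (⟨_, h3⟩ | ⟨h3, _⟩)
      · exact hdis _ h2 h3
      · exact hdis _ h1 h3
  have hsub : S ⊆ ((univ : Finset G.Subgraph).filter
      fun H => Nonempty (completeBipartiteGraph (Fin t) (Fin t) ≃g H.coe)).biUnion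
        (offPairs G) := by
    intro p hp
    obtain ⟨H, h1, h2⟩ := key p hp
    rw [Finset.mem_biUnion]
    exact ⟨H, by simpa using h1, h2⟩
  refine (Finset.card_le_card hsub).trans ?_
  refine (Finset.card_biUnion_le_card_mul _ _ (2 * t * (t - 1)) ?_).trans ?_
  · intro H hH
    rw [Finset.mem_filter] at hH
    obtain ⟨e⟩ := hH.2
    exact (card_offPairs G t H e).le
  · unfold SimpleGraph.copyCount
    rw [mul_comm]

/-- The upper bound. -/
theorem copyCount_le {V : Type*} [Fintype V] (G : SimpleGraph V) {t : ℕ} (ht : 2 ≤ t)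
    (hG : KFree G t) :
    2 * t * (t - 1) * G.copyCount (completeBipartiteGraph (Fin t) (Fin t)) ≤
      Fintype.card V * (Fintype.card V - 1) := by
  classical
  rw [kfree_iff] at hG
  -- structure of a copy
  have hstr : ∀ H : G.Subgraph, Nonempty (completeBipartiteGraph (Fin t) (Fin t) ≃g H.coe) →
      ∀ p ∈ offPairs G H, ∃ A B : Finset V, A.card = t ∧ B.card = t ∧ p.1 ∈ A ∧ p.2 ∈ A ∧
        (∀ x, x ∈ H.verts ↔ x ∈ A ∨ x ∈ B) ∧
        (∀ x y, H.Adj x y ↔ (x ∈ A ∧ y ∈ B) ∨ (x ∈ B ∧ y ∈ A)) := by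
    rintro H ⟨e⟩ ⟨u, v⟩ hp
    rw [mem_offPairs] at hp
    obtain ⟨hu, hv, hne, hnadj⟩ := hp
    simp only at hu hv hne hnadj
    let L : Finset V := univ.image fun i : Fin t => (e (Sum.inl i) : V)
    let R : Finset V := univ.image fun i : Fin t => (e (Sum.inr i) : V)
    have hLc : L.card = t := by
      rw [Finset.card_image_of_injective _ (fun i j hij => by
        simpa using e.injective (Subtype.ext hij)), Finset.card_univ, Fintype.card_fin]
    have hRc : R.card = t := by
      rw [Finset.card_image_of_injective _ (fun i j hij => by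
        simpa using e.injective (Subtype.ext hij)), Finset.card_univ, Fintype.card_fin]
    have hverts : ∀ x, x ∈ H.verts ↔ x ∈ L ∨ x ∈ R := by
      intro x
      constructor
      · intro hx
        rcases h : e.symm ⟨x, hx⟩ with i | i
        · left
          simp only [L, Finset.mem_image, Finset.mem_univ, true_and]
          exact ⟨i, by rw [← h]; simp⟩
        · right
          simp only [R, Finset.mem_image, Finset.mem_univ, true_and]
          exact ⟨i, by rw [← h]; simp⟩
      · rintro (h | h)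
        · simp only [L, Finset.mem_image, Finset.mem_univ, true_and] at h
          obtain ⟨i, rfl⟩ := h
          exact (e _).2
        · simp only [R, Finset.mem_image, Finset.mem_univ, true_and] at h
          obtain ⟨i, rfl⟩ := h
          exact (e _).2
    have hadj : ∀ x y, H.Adj x y ↔ (x ∈ L ∧ y ∈ R) ∨ (x ∈ R ∧ y ∈ L) := by
      intro x y
      constructor
      · intro hxy
        have hx := H.edge_vert hxy
        have hy := H.edge_vert hxy.symm
        have h3 : (completeBipartiteGraph (Fin t) (Fin t)).Adj (e.symm ⟨x, hx⟩)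
            (e.symm ⟨y, hy⟩) := by
          rw [← e.map_adj_iff]; simpa using hxy
        rcases h : e.symm ⟨x, hx⟩ with i | i <;> rcases h' : e.symm ⟨y, hy⟩ with j | j <;>
          rw [h, h'] at h3 <;> simp at h3
        · left
          simp only [L, R, Finset.mem_image, Finset.mem_univ, true_and]
          exact ⟨⟨i, by rw [← h]; simp⟩, ⟨j, by rw [← h']; simp⟩⟩
        · right
          simp only [L, R, Finset.mem_image, Finset.mem_univ, true_and]
          exact ⟨⟨i, by rw [← h]; simp⟩, ⟨j, by rw [← h']; simp⟩⟩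
      · rintro (⟨h, h'⟩ | ⟨h, h'⟩) <;>
          simp only [L, R, Finset.mem_image, Finset.mem_univ, true_and] at h h' <;>
          obtain ⟨i, rfl⟩ := h <;> obtain ⟨j, rfl⟩ := h'
        · have : H.coe.Adj (e (Sum.inl i)) (e (Sum.inr j)) := e.map_adj_iff.2 (by simp)
          simpa using this
        · have : H.coe.Adj (e (Sum.inr i)) (e (Sum.inl j)) := e.map_adj_iff.2 (by simp)
          simpa using this
    rcases (hverts u).1 hu with h1 | h1 <;> rcases (hverts v).1 hv with h2 | h2
    · exact ⟨L, R, hLc, hRc, h1, h2, hverts, hadj⟩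
    · exact absurd ((hadj u v).2 (Or.inl ⟨h1, h2⟩)) hnadj
    · exact absurd ((hadj u v).2 (Or.inr ⟨h1, h2⟩)) hnadj
    · exact ⟨R, L, hRc, hLc, h1, h2, fun x => (hverts x).trans or_comm,
        fun x y => (hadj x y).trans or_comm⟩
  have hdisj : ((univ : Finset G.Subgraph).filter
      fun H => Nonempty (completeBipartiteGraph (Fin t) (Fin t) ≃g H.coe) : Set G.Subgraph).PairwiseDisjoint
        (offPairs G) := by
    intro H hH H' hH' hne
    rw [Function.onFun, Finset.disjoint_left]
    rintro ⟨u, v⟩ hp hp'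
    apply hne
    have hH1 : Nonempty (completeBipartiteGraph (Fin t) (Fin t) ≃g H.coe) := by simpa using hH
    have hH2 : Nonempty (completeBipartiteGraph (Fin t) (Fin t) ≃g H'.coe) := by simpa using hH'
    obtain ⟨A, B, hA, hB, hu, hv, hverts, hadj⟩ := hstr H hH1 _ hp
    obtain ⟨A', B', hA', hB', hu', hv', hverts', hadj'⟩ := hstr H' hH2 _ hp'
    simp only at hu hv hu' hv'
    have huv : u ≠ v := ((mem_offPairs G H _).1 hp).2.2.1
    have hBB : B = B' := by
      have h1 := hG u v huv (B ∪ B') (by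
        intro x hx
        rw [Finset.mem_union] at hx
        rcases hx with hx | hx
        · exact ⟨H.adj_sub ((hadj u x).2 (Or.inl ⟨hu, hx⟩)),
            H.adj_sub ((hadj v x).2 (Or.inl ⟨hv, hx⟩))⟩
        · exact ⟨H'.adj_sub ((hadj' u x).2 (Or.inl ⟨hu', hx⟩)),
            H'.adj_sub ((hadj' v x).2 (Or.inl ⟨hv', hx⟩))⟩)
      have h2 : B = B ∪ B' := Finset.eq_of_subset_of_card_le Finset.subset_union_left (by omega)
      have h3 : B' = B ∪ B' := Finset.eq_of_subset_of_card_le Finset.subset_union_right (by omega)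
      rw [h2, ← h3]
    obtain ⟨x, y, hx, hy, hxy⟩ : ∃ x y, x ∈ B ∧ y ∈ B ∧ x ≠ y := by
      obtain ⟨x, hx, y, hy, hxy⟩ := Finset.one_lt_card.1 (show 1 < B.card by omega)
      exact ⟨x, y, hx, hy, hxy⟩
    have hAA : A = A' := by
      have h1 := hG x y hxy (A ∪ A') (by
        intro z hz
        rw [Finset.mem_union] at hz
        rcases hz with hz | hz
        · exact ⟨H.adj_sub ((hadj x z).2 (Or.inr ⟨hx, hz⟩)),
            H.adj_sub ((hadj y z).2 (Or.inr ⟨hy, hz⟩))⟩
        · exact ⟨H'.adj_sub ((hadj' x z).2 (Or.inr ⟨hBB ▸ hx, hz⟩)),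
            H'.adj_sub ((hadj' y z).2 (Or.inr ⟨hBB ▸ hy, hz⟩))⟩)
      have h2 : A = A ∪ A' := Finset.eq_of_subset_of_card_le Finset.subset_union_left (by omega)
      have h3 : A' = A ∪ A' := Finset.eq_of_subset_of_card_le Finset.subset_union_right (by omega)
      rw [h2, ← h3]
    refine Subgraph.ext ?_ ?_
    · ext z
      rw [hverts, hverts', hAA, hBB]
    · ext z w
      rw [hadj, hadj', hAA, hBB]
  have h1 := Finset.card_biUnion hdisj
  have h2 : (((univ : Finset G.Subgraph).filter
      fun H => Nonempty (completeBipartiteGraph (Fin t) (Fin t) ≃g H.coe)).biUnion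
        (offPairs G)).card ≤ (univ : Finset V).offDiag.card := by
    apply Finset.card_le_card
    intro p hp
    rw [Finset.mem_biUnion] at hp
    obtain ⟨H, _, hp⟩ := hp
    rw [mem_offPairs] at hp
    simpa using hp.2.2.1
  rw [Finset.offDiag_card, Finset.card_univ] at h2
  rw [h1] at h2
  have h3 : ∑ H ∈ ((univ : Finset G.Subgraph).filter
      fun H => Nonempty (completeBipartiteGraph (Fin t) (Fin t) ≃g H.coe)), (offPairs G H).card =
      2 * t * (t - 1) * G.copyCount (completeBipartiteGraph (Fin t) (Fin t)) := by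
    rw [Finset.sum_congr rfl (g := fun _ => 2 * t * (t - 1)) (by
      intro H hH
      rw [Finset.mem_filter] at hH
      obtain ⟨e⟩ := hH.2
      exact card_offPairs G t H e)]
    rw [Finset.sum_const, smul_eq_mul]
    unfold SimpleGraph.copyCount
    rw [mul_comm]
  rw [h3] at h2
  refine h2.trans (le_of_eq ?_)
  rw [Nat.mul_sub]; simp

theorem N_bdd (t n : ℕ) : BddAbove {k | ∃ G : SimpleGraph (Fin n), KFree G t ∧
    G.copyCount (completeBipartiteGraph (Fin t) (Fin t)) = k} := by
  classical
  refine ⟨Fintype.card (SimpleGraph (Fin n)) * 0 + ∑ G : SimpleGraph (Fin n),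
    G.copyCount (completeBipartiteGraph (Fin t) (Fin t)), ?_⟩
  rintro k ⟨G, -, rfl⟩
  rw [mul_zero, zero_add]
  exact Finset.single_le_sum (f := fun G : SimpleGraph (Fin n) =>
    G.copyCount (completeBipartiteGraph (Fin t) (Fin t))) (fun _ _ => Nat.zero_le _)
    (Finset.mem_univ G)

theorem le_N {t n : ℕ} (G : SimpleGraph (Fin n)) (hG : KFree G t) :
    G.copyCount (completeBipartiteGraph (Fin t) (Fin t)) ≤ N t n :=
  le_csSup (N_bdd t n) ⟨G, hG, rfl⟩

/-- The upper bound for `N`. -/
theorem N_le {t : ℕ} (ht : 2 ≤ t) (n : ℕ) : 2 * t * (t - 1) * N t n ≤ n * (n - 1) := by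
  have hne : {k | ∃ G : SimpleGraph (Fin n), KFree G t ∧
    G.copyCount (completeBipartiteGraph (Fin t) (Fin t)) = k}.Nonempty := by
    refine ⟨_, ⊥, ?_, rfl⟩
    rw [kfree_iff]
    intro u v _ S hS
    have : S = ∅ := by
      rw [Finset.eq_empty_iff_forall_notMem]
      intro x hx
      exact (hS x hx).1
    simp [this]
  obtain ⟨G, hG, h⟩ := Nat.sSup_mem hne (N_bdd t n)
  have := copyCount_le G ht hG
  rw [Fintype.card_fin, h] at this
  exact this

/-- Lower bound for `N` from `k` disjoint copies of a graph with many good pairs. -/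
theorem N_ge {V : Type*} [Fintype V] (G : SimpleGraph V) {t n k : ℕ} (ht : 1 ≤ t) (hG : KFree G t)
    (hn : k * Fintype.card V ≤ n) (S : Finset (V × V))
    (hS : ∀ p ∈ S, p.1 ≠ p.2 ∧ ∃ A B : Finset V, A.card = t ∧ B.card = t ∧ p.1 ∈ A ∧ p.2 ∈ A ∧
      ∀ a ∈ A, ∀ b ∈ B, G.Adj a b) :
    k * S.card ≤ 2 * t * (t - 1) * N t n := by
  classical
  have hcard : Fintype.card (Fin k × V) ≤ Fintype.card (Fin n) := by simpa using hn
  obtain ⟨ι⟩ := Function.Embedding.nonempty_of_card_le hcard
  let G1 : SimpleGraph (Fin k × V) :=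
    { Adj := fun x y => x.1 = y.1 ∧ G.Adj x.2 y.2
      symm := ⟨fun x y h => ⟨h.1.symm, h.2.symm⟩⟩
      loopless := ⟨fun x h => G.loopless.irrefl _ h.2⟩ }
  let G' : SimpleGraph (Fin n) := G1.map ι
  have hfree : KFree G' t := by
    rw [kfree_iff] at hG ⊢
    intro u v huv T hT
    by_contra hlt
    push Not at hlt
    have hTne : T.Nonempty := Finset.card_pos.1 (by omega)
    have hlift : ∀ x ∈ T, ∃ (i : Fin k) (a b c : V), ι (i, a) = u ∧ ι (i, b) = v ∧ ι (i, c) = x ∧
        G.Adj a c ∧ G.Adj b c := by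
      intro x hx
      obtain ⟨h1, h2⟩ := hT x hx
      obtain ⟨-, ⟨i, a⟩, ⟨i', c⟩, h3, h4, h5⟩ := h1
      obtain ⟨-, ⟨j, b⟩, ⟨j', c'⟩, h6, h7, h8⟩ := h2
      have h9 : ((i', c) : Fin k × V) = (j', c') := ι.injective (h5.trans h8.symm)
      simp only [Prod.mk.injEq] at h9
      obtain ⟨h3a, h3b⟩ := h3
      obtain ⟨h6a, h6b⟩ := h6
      simp only at h3a h3b h6a h6b
      subst h3a
      subst h6a
      obtain ⟨rfl, rfl⟩ := h9
      exact ⟨_, a, b, c, h4, h7, h5, h3b, h6b⟩
    obtain ⟨x0, hx0⟩ := hTne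
    obtain ⟨i, a, b, c0, hu, hv, -, -, -⟩ := hlift x0 hx0
    have hab : a ≠ b := by
      rintro rfl
      exact huv (hu.symm.trans hv)
    have hsub : T ⊆ (univ.filter fun c => G.Adj a c ∧ G.Adj b c).image fun c => ι (i, c) := by
      intro x hx
      obtain ⟨i', a', b', c, hu', hv', hc, h1, h2⟩ := hlift x hx
      have h3 : ((i', a') : Fin k × V) = (i, a) := ι.injective (hu'.trans hu.symm)
      have h4 : ((i', b') : Fin k × V) = (i, b) := ι.injective (hv'.trans hv.symm)
      simp only [Prod.mk.injEq] at h3 h4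
      obtain ⟨rfl, rfl⟩ := h3
      obtain ⟨-, rfl⟩ := h4
      rw [Finset.mem_image]
      exact ⟨c, by simp [h1, h2], hc⟩
    have h5 := (Finset.card_le_card hsub).trans Finset.card_image_le
    have h6 := hG a b hab (univ.filter fun c => G.Adj a c ∧ G.Adj b c) (by
      intro x hx; simpa using hx)
    omega
  have h1 := le_copyCount G' t
    ((univ ×ˢ S).image fun q : Fin k × (V × V) => (ι (q.1, q.2.1), ι (q.1, q.2.2))) (by
      intro p hp
      rw [Finset.mem_image] at hp
      obtain ⟨⟨i, ⟨u, v⟩⟩, hq, rfl⟩ := hp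
      rw [Finset.mem_product] at hq
      obtain ⟨hne, A, B, hA, hB, hu, hv, hadj⟩ := hS _ hq.2
      simp only at hne hu hv
      refine ⟨?_, A.image fun a => ι (i, a), B.image fun a => ι (i, a), ?_, ?_, ?_, ?_, ?_⟩
      · intro h
        have := ι.injective h
        simp only [Prod.mk.injEq, true_and] at this
        exact hne this
      · rw [Finset.card_image_of_injective _ (fun a b hab => by
          have := ι.injective hab
          simpa using this), hA]
      · rw [Finset.card_image_of_injective _ (fun a b hab => by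
          have := ι.injective hab
          simpa using this), hB]
      · exact Finset.mem_image_of_mem _ hu
      · exact Finset.mem_image_of_mem _ hv
      · intro a ha b hb
        rw [Finset.mem_image] at ha hb
        obtain ⟨a, ha, rfl⟩ := ha
        obtain ⟨b, hb, rfl⟩ := hb
        refine ⟨?_, (i, a), (i, b), ⟨rfl, hadj a ha b hb⟩, rfl, rfl⟩
        intro h
        have h2 := ι.injective h
        simp only [Prod.mk.injEq, true_and] at h2
        have h3 := hadj a ha b hb
        rw [h2] at h3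
        exact G.loopless.irrefl _ h3)
  rw [Finset.card_image_of_injective _ (by
    rintro ⟨i, ⟨u, v⟩⟩ ⟨j, ⟨u', v'⟩⟩ h
    simp only [Prod.mk.injEq] at h
    have h2 := ι.injective h.1
    have h3 := ι.injective h.2
    simp only [Prod.mk.injEq] at h2 h3
    obtain ⟨rfl, rfl⟩ := h2
    obtain ⟨-, rfl⟩ := h3
    rfl), Finset.card_product, Finset.card_univ, Fintype.card_fin] at h1
  exact h1.trans (Nat.mul_le_mul_left _ (le_N G' hfree))

end KTT
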