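import Mathlib

/-!
# Binary codes whose largest weight is attained often
-/

set_option autoImplicit false

open Finset

namespace KTT

/-- weight of the codeword given by `φ` -/
def wt {ι : Type*} [Fintype ι] (A : Finset (ι → ZMod 2)) (φ : ι → ZMod 2) : ℕ :=
  (A.filter fun c => ∑ i, c i * φ i = 1).card

/-- simplex codes have constant weight -/
theorem simplex_wt {ι : Type*} [Fintype ι] [DecidableEq ι] {φ : ι → ZMod 2} (hφ : φ ≠ 0) :
    2 * (univ.filter fun c : ι → ZMod 2 => ∑ i, c i * φ i = 1).card = 2 ^ Fintype.card ι := by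
  let f : (ι → ZMod 2) →+ ZMod 2 :=
    { toFun := fun c => ∑ i, c i * φ i
      map_zero' := by simp
      map_add' := fun c c' => by
        rw [← Finset.sum_add_distrib]
        refine Finset.sum_congr rfl fun i _ => ?_
        rw [Pi.add_apply]; ring }
  obtain ⟨i, hi⟩ : ∃ i, φ i ≠ 0 := by
    by_contra h
    push Not at h
    exact hφ (funext h)
  have hi1 : φ i = 1 := by
    have h4 : ∀ z : ZMod 2, z ≠ 0 → z = 1 := by decide
    exact h4 _ hi
  have hone : f (Pi.single i 1) = 1 := by
    change ∑ j, (Pi.single i 1 : ι → ZMod 2) j * φ j = 1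
    rw [Finset.sum_eq_single i]
    · simp [hi1]
    · intro j _ hj; simp [Pi.single_eq_of_ne hj]
    · intro h; exact absurd (Finset.mem_univ _) h
  have h1 : (univ.filter fun c : ι → ZMod 2 => f c = 1).card =
      (univ.filter fun c : ι → ZMod 2 => f c = 0).card :=
    AddMonoidHom.card_fiber_eq_of_mem_range f ⟨_, hone⟩ ⟨0, map_zero f⟩
  have h2 : (univ : Finset (ι → ZMod 2)).card =
      (univ.filter fun c : ι → ZMod 2 => f c = 1).card +
      (univ.filter fun c : ι → ZMod 2 => f c = 0).card := by
    rw [← Finset.card_filter_add_card_filter_not (fun c : ι → ZMod 2 => f c = 1)]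
    congr 2
    ext c
    have h4 : ∀ z : ZMod 2, ¬ z = 1 ↔ z = 0 := by decide
    simp [h4]
  rw [Finset.card_univ, Fintype.card_fun, ZMod.card] at h2
  change 2 * (univ.filter fun c : ι → ZMod 2 => f c = 1).card = _
  omega

/-- the full simplex code -/
theorem simplex_code (a : ℕ) (ha : 1 ≤ a) :
    (0 : Fin a → ZMod 2) ∉ (univ.erase 0 : Finset (Fin a → ZMod 2)) ∧
    (univ.erase 0 : Finset (Fin a → ZMod 2)).card = 2 ^ a - 1 ∧
    (∀ φ : Fin a → ZMod 2, φ ≠ 0 → wt (univ.erase 0) φ = 2 ^ (a - 1)) ∧
    wt (univ.erase 0) (0 : Fin a → ZMod 2) = 0 := by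
  refine ⟨by simp, ?_, ?_, ?_⟩
  · rw [Finset.card_erase_of_mem (Finset.mem_univ _), Finset.card_univ, Fintype.card_fun,
      ZMod.card, Fintype.card_fin]
  · intro φ hφ
    have h := simplex_wt hφ
    have h2 : wt (univ.erase 0) φ = (univ.filter fun c : Fin a → ZMod 2 => ∑ i, c i * φ i = 1).card := by
      unfold wt
      congr 1
      ext c
      simp only [Finset.mem_filter, Finset.mem_erase, Finset.mem_univ, and_true, true_and]
      constructor
      · exact fun h => h.2
      · intro h
        refine ⟨?_, h⟩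
        rintro rfl
        simp at h
    rw [h2]
    rw [Fintype.card_fin] at h
    obtain ⟨b, rfl⟩ : ∃ b, a = b + 1 := ⟨a - 1, by omega⟩
    rw [pow_succ] at h
    simp only [Nat.add_sub_cancel]
    omega
  · unfold wt
    rw [Finset.card_eq_zero, Finset.filter_eq_empty_iff]
    intro c _
    simp

/-- the fractions -/
noncomputable def fr (i : ℕ) : ℝ := if i = 0 then 1 else 1 / 4 + 1 / 2 ^ (i + 1)

theorem fr_succ_le (i : ℕ) : fr (i + 1) ≤ fr i := by
  unfold fr
  rw [if_neg (by omega)]
  split_ifs with h
  · subst h; norm_num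
  · have : (1 : ℝ) / 2 ^ (i + 1 + 1) ≤ 1 / 2 ^ (i + 1) := by
      apply one_div_le_one_div_of_le (by positivity)
      exact pow_le_pow_right₀ (by norm_num) (by omega)
    linarith

theorem fr_step (i : ℕ) : fr (i + 1) ≤ fr i * (1 - 1 / 2 ^ (i + 1)) := by
  unfold fr
  rw [if_neg (by omega)]
  split_ifs with h
  · subst h; norm_num
  · have h1 : (1 : ℝ) / 2 ^ (i + 1) ≤ 1 / 4 := by
      apply one_div_le_one_div_of_le (by norm_num)
      calc (4 : ℝ) = 2 ^ 2 := by norm_num
        _ ≤ 2 ^ (i + 1) := pow_le_pow_right₀ (by norm_num) (by omega)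
    have h2 : (1 : ℝ) / 2 ^ (i + 1 + 1) = 1 / 2 ^ (i + 1) / 2 := by
      rw [pow_succ]; field_simp
    have h3 : (0 : ℝ) < 1 / 2 ^ (i + 1) := by positivity
    rw [h2]
    nlinarith

theorem quarter_le_fr (i : ℕ) : 1 / 4 ≤ fr i := by
  unfold fr
  split_ifs with h
  · norm_num
  · have : (0 : ℝ) < 1 / 2 ^ (i + 1) := by positivity
    linarith

theorem exists_code (i : ℕ) : ∀ w : ℕ, w < 2 ^ i →
    ∃ (ι : Type) (_ : Fintype ι) (_ : DecidableEq ι) (A : Finset (ι → ZMod 2)),
      (0 : ι → ZMod 2) ∉ A ∧ A.card ≤ 2 * w ∧ (∀ φ, wt A φ ≤ w) ∧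
      fr i * 2 ^ Fintype.card ι ≤ ((univ.filter fun φ : ι → ZMod 2 => wt A φ = w).card : ℝ) := by
  induction i with
  | zero =>
    intro w hw
    have hw0 : w = 0 := by simpa using hw
    subst hw0
    refine ⟨Fin 0, inferInstance, inferInstance, ∅, by simp, by simp, by simp [wt], ?_⟩
    simp [fr, wt]
  | succ i ih =>
    intro w hw
    by_cases hlt : w < 2 ^ i
    · obtain ⟨ι, h1, h2, A, hA0, hA, hmax, hN⟩ := ih w hlt
      refine ⟨ι, h1, h2, A, hA0, hA, hmax, le_trans ?_ hN⟩
      exact mul_le_mul_of_nonneg_right (fr_succ_le i) (by positivity)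
    · push Not at hlt
      obtain ⟨w1, rfl⟩ : ∃ w1, w = 2 ^ i + w1 := ⟨w - 2 ^ i, by omega⟩
      obtain ⟨ι, h1, h2, A, hA0, hA, hmax, hN⟩ := ih w1 (by rw [pow_succ] at hw; omega)
      let B : Finset (ι ⊕ Fin (i + 1) → ZMod 2) :=
        A.image (fun c => Sum.elim c 0) ∪
          (univ.erase (0 : Fin (i + 1) → ZMod 2)).image fun e => Sum.elim 0 e
      have hinj1 : Function.Injective fun c : ι → ZMod 2 =>
          (Sum.elim c 0 : ι ⊕ Fin (i + 1) → ZMod 2) := by
        intro c c' h
        funext j
        simpa using congrFun h (Sum.inl j)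
      have hinj2 : Function.Injective fun e : Fin (i + 1) → ZMod 2 =>
          (Sum.elim 0 e : ι ⊕ Fin (i + 1) → ZMod 2) := by
        intro c c' h
        funext j
        simpa using congrFun h (Sum.inr j)
      obtain ⟨-, hc2, hc3, hc4⟩ := simplex_code (i + 1) (by omega)
      have hwt : ∀ φ : ι ⊕ Fin (i + 1) → ZMod 2,
          wt B φ = wt A (fun j => φ (Sum.inl j)) + wt (univ.erase 0) (fun j => φ (Sum.inr j)) := by
        intro φ
        unfold wt
        rw [Finset.filter_union, Finset.card_union_of_disjoint, Finset.filter_image,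
          Finset.filter_image, Finset.card_image_of_injective _ hinj1,
          Finset.card_image_of_injective _ hinj2]
        · congr 2
          · ext c; simp
          · ext c; simp
        · rw [Finset.disjoint_left]
          intro x hx hx'
          rw [Finset.mem_filter, Finset.mem_image] at hx hx'
          obtain ⟨⟨c, hc, rfl⟩, -⟩ := hx
          obtain ⟨⟨e, he, h⟩, -⟩ := hx'
          apply hA0
          have : c = 0 := by
            funext j
            have := congrFun h (Sum.inl j)
            simpa using this.symm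
          rwa [← this]
      refine ⟨ι ⊕ Fin (i + 1), inferInstance, inferInstance, B, ?_, ?_, ?_, ?_⟩
      · intro h
        rw [Finset.mem_union, Finset.mem_image, Finset.mem_image] at h
        rcases h with ⟨c, hc, h⟩ | ⟨e, he, h⟩
        · apply hA0
          have : c = 0 := by
            funext j
            have := congrFun h (Sum.inl j)
            simpa using this
          rwa [← this]
        · rw [Finset.mem_erase] at he
          apply he.1
          funext j
          have := congrFun h (Sum.inr j)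
          simpa using this
      · refine (Finset.card_union_le _ _).trans ?_
        rw [Finset.card_image_of_injective _ hinj1, Finset.card_image_of_injective _ hinj2, hc2,
          pow_succ]
        omega
      · intro φ
        rw [hwt]
        have h3 := hmax fun j => φ (Sum.inl j)
        by_cases h4 : (fun j => φ (Sum.inr j)) = 0
        · rw [h4, hc4]; omega
        · rw [hc3 _ h4]; simp only [Nat.add_sub_cancel]; omega
      · have hsub : ((univ.filter fun φ : ι → ZMod 2 => wt A φ = w1) ×ˢ
            (univ.erase (0 : Fin (i + 1) → ZMod 2))).image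
              (fun x => (Sum.elim x.1 x.2 : ι ⊕ Fin (i + 1) → ZMod 2)) ⊆
            univ.filter fun φ => wt B φ = 2 ^ i + w1 := by
          intro φ hφ
          rw [Finset.mem_image] at hφ
          obtain ⟨⟨φ1, φ2⟩, hx, rfl⟩ := hφ
          rw [Finset.mem_product, Finset.mem_filter, Finset.mem_erase] at hx
          rw [Finset.mem_filter]
          refine ⟨Finset.mem_univ _, ?_⟩
          rw [hwt]
          simp only [Sum.elim_inl, Sum.elim_inr]
          have h5 := hc3 φ2 hx.2.1
          simp only [Nat.add_sub_cancel] at h5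
          change wt A φ1 + wt (univ.erase 0) φ2 = _
          rw [hx.1.2, h5, add_comm]
        have h3 := Finset.card_le_card hsub
        rw [Finset.card_image_of_injective _ (by
          rintro ⟨x, y⟩ ⟨x', y'⟩ h
          have h1 : x = x' := by funext j; simpa using congrFun h (Sum.inl j)
          have h2 : y = y' := by funext j; simpa using congrFun h (Sum.inr j)
          rw [h1, h2]), Finset.card_product, hc2] at h3
        have h4 : (((univ.filter fun φ : ι → ZMod 2 => wt A φ = w1).card *
            (2 ^ (i + 1) - 1) : ℕ) : ℝ) ≤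
            ((univ.filter fun φ => wt B φ = 2 ^ i + w1).card : ℝ) := by exact_mod_cast h3
        refine le_trans ?_ h4
        have h5 : ((2 ^ (i + 1) - 1 : ℕ) : ℝ) = 2 ^ (i + 1) - 1 := by
          rw [Nat.cast_sub Nat.one_le_two_pow]; simp
        rw [Nat.cast_mul, h5, Fintype.card_sum, Fintype.card_fin, pow_add]
        have h6 : (0 : ℝ) ≤ 2 ^ (i + 1) - 1 := by
          have : (1 : ℝ) ≤ 2 ^ (i + 1) := one_le_pow₀ (by norm_num)
          linarith
        calc fr (i + 1) * (2 ^ Fintype.card ι * 2 ^ (i + 1))
            ≤ fr i * (1 - 1 / 2 ^ (i + 1)) * (2 ^ Fintype.card ι * 2 ^ (i + 1)) :=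
              mul_le_mul_of_nonneg_right (fr_step i) (by positivity)
          _ = fr i * 2 ^ Fintype.card ι * (2 ^ (i + 1) - 1) := by
              field_simp
          _ ≤ _ := mul_le_mul_of_nonneg_right hN h6

end KTT
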