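import Pool.Agent.Work.KTT.Code

/-!
# Sums of simplex codes, with exact parameters
-/

set_option autoImplicit false

open Finset

namespace KTT

theorem exists_code_exact (S : Finset ℕ) :
    ∃ (ι : Type) (_ : Fintype ι) (_ : DecidableEq ι) (A : Finset (ι → ZMod 2)),
      (0 : ι → ZMod 2) ∉ A ∧ A.card = ∑ i ∈ S, (2 ^ (i + 1) - 1) ∧
      (∀ φ, wt A φ ≤ ∑ i ∈ S, 2 ^ i) ∧
      (∏ i ∈ S, (1 - 1 / 2 ^ (i + 1) : ℝ)) * 2 ^ Fintype.card ι ≤
        ((univ.filter fun φ : ι → ZMod 2 => wt A φ = ∑ i ∈ S, 2 ^ i).card : ℝ) := by
  induction S using Finset.induction_on with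
  | empty =>
    refine ⟨Fin 0, inferInstance, inferInstance, ∅, by simp, by simp, by simp [wt], ?_⟩
    simp [wt]
  | insert i S hi ih =>
      obtain ⟨ι, h1, h2, A, hA0, hA, hmax, hN⟩ := ih
      rw [Finset.sum_insert hi, Finset.sum_insert hi, Finset.prod_insert hi]
      set w1 := ∑ i ∈ S, 2 ^ i with hw1
      let B : Finset (ι ⊕ Fin (i + 1) → ZMod 2) :=
        A.image (fun c => Sum.elim c 0) ∪
          (univ.erase (0 : Fin (i + 1) → ZMod 2)).image fun e => Sum.elim 0 e
      have hinj1 : Function.Injective fun c : ι → ZMod 2 =>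
          (Sum.elim c 0 : ι ⊕ Fin (i + 1) → ZMod 2) := by
        intro c c' h
        funext j
        simpa using congrFun h (Sum.inl j)
      have hinj2 : Function.Injective fun e : Fin (i + 1) → ZMod 2 =>
          (Sum.elim 0 e : ι ⊕ Fin (i + 1) → ZMod 2) := by
        intro c c' h
        funext j
        simpa using congrFun h (Sum.inr j)
      have hdisj : Disjoint (A.image (fun c => (Sum.elim c 0 : ι ⊕ Fin (i + 1) → ZMod 2)))
          ((univ.erase (0 : Fin (i + 1) → ZMod 2)).image
            fun e => (Sum.elim 0 e : ι ⊕ Fin (i + 1) → ZMod 2)) := by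
        rw [Finset.disjoint_left]
        intro x hx hx'
        rw [Finset.mem_image] at hx hx'
        obtain ⟨c, hc, rfl⟩ := hx
        obtain ⟨e, he, h⟩ := hx'
        apply hA0
        have : c = 0 := by
          funext j
          have := congrFun h (Sum.inl j)
          simpa using this.symm
        rwa [← this]
      obtain ⟨-, hc2, hc3, hc4⟩ := simplex_code (i + 1) (by omega)
      have hwt : ∀ φ : ι ⊕ Fin (i + 1) → ZMod 2,
          wt B φ = wt A (fun j => φ (Sum.inl j)) + wt (univ.erase 0) (fun j => φ (Sum.inr j)) := by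
        intro φ
        unfold wt
        rw [Finset.filter_union, Finset.card_union_of_disjoint, Finset.filter_image,
          Finset.filter_image, Finset.card_image_of_injective _ hinj1,
          Finset.card_image_of_injective _ hinj2]
        · congr 2
          · ext c; simp
          · ext c; simp
        · exact Finset.disjoint_filter_filter hdisj
      refine ⟨ι ⊕ Fin (i + 1), inferInstance, inferInstance, B, ?_, ?_, ?_, ?_⟩
      · intro h
        rw [Finset.mem_union, Finset.mem_image, Finset.mem_image] at h
        rcases h with ⟨c, hc, h⟩ | ⟨e, he, h⟩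
        · apply hA0
          have : c = 0 := by
            funext j
            have := congrFun h (Sum.inl j)
            simpa using this
          rwa [← this]
        · rw [Finset.mem_erase] at he
          apply he.1
          funext j
          have := congrFun h (Sum.inr j)
          simpa using this
      · rw [Finset.card_union_of_disjoint hdisj,
          Finset.card_image_of_injective _ hinj1, Finset.card_image_of_injective _ hinj2, hc2, hA,
          add_comm]
      · intro φ
        rw [hwt]
        have h3 := hmax fun j => φ (Sum.inl j)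
        by_cases h4 : (fun j => φ (Sum.inr j)) = 0
        · rw [h4, hc4, add_zero]
          exact h3.trans (Nat.le_add_left _ _)
        · rw [hc3 _ h4, Nat.add_sub_cancel, add_comm]
          exact Nat.add_le_add_left h3 _
      · have hsub : ((univ.filter fun φ : ι → ZMod 2 => wt A φ = w1) ×ˢ
            (univ.erase (0 : Fin (i + 1) → ZMod 2))).image
              (fun x => (Sum.elim x.1 x.2 : ι ⊕ Fin (i + 1) → ZMod 2)) ⊆
            univ.filter fun φ => wt B φ = 2 ^ i + w1 := by
          intro φ hφ
          rw [Finset.mem_image] at hφ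
          obtain ⟨⟨φ1, φ2⟩, hx, rfl⟩ := hφ
          rw [Finset.mem_product, Finset.mem_filter, Finset.mem_erase] at hx
          rw [Finset.mem_filter]
          refine ⟨Finset.mem_univ _, ?_⟩
          rw [hwt]
          simp only [Sum.elim_inl, Sum.elim_inr]
          have h5 := hc3 φ2 hx.2.1
          simp only [Nat.add_sub_cancel] at h5
          change wt A φ1 + wt (univ.erase 0) φ2 = _
          rw [hx.1.2, h5, add_comm]
        have h3 := Finset.card_le_card hsub
        rw [Finset.card_image_of_injective _ (by
          rintro ⟨x, y⟩ ⟨x', y'⟩ h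
          have h1 : x = x' := by funext j; simpa using congrFun h (Sum.inl j)
          have h2 : y = y' := by funext j; simpa using congrFun h (Sum.inr j)
          rw [h1, h2]), Finset.card_product, hc2] at h3
        have h4 : (((univ.filter fun φ : ι → ZMod 2 => wt A φ = w1).card *
            (2 ^ (i + 1) - 1) : ℕ) : ℝ) ≤
            ((univ.filter fun φ => wt B φ = 2 ^ i + w1).card : ℝ) := by exact_mod_cast h3
        refine le_trans ?_ h4
        have h5 : ((2 ^ (i + 1) - 1 : ℕ) : ℝ) = 2 ^ (i + 1) - 1 := by
          rw [Nat.cast_sub Nat.one_le_two_pow]; simp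
        have h7 : (2 : ℝ) ^ (Fintype.card ι + (i + 1)) = 2 ^ Fintype.card ι * 2 ^ (i + 1) :=
          pow_add _ _ _
        rw [Nat.cast_mul, h5, Fintype.card_sum, Fintype.card_fin, h7]
        have h6 : (0 : ℝ) ≤ 2 ^ (i + 1) - 1 := by
          have : (1 : ℝ) ≤ 2 ^ (i + 1) := one_le_pow₀ (by norm_num)
          linarith
        calc (1 - 1 / 2 ^ (i + 1) : ℝ) * (∏ i ∈ S, (1 - 1 / 2 ^ (i + 1) : ℝ)) *
              (2 ^ Fintype.card ι * 2 ^ (i + 1))
            = (∏ i ∈ S, (1 - 1 / 2 ^ (i + 1) : ℝ)) * 2 ^ Fintype.card ι * (2 ^ (i + 1) - 1) := by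
              field_simp
          _ ≤ _ := mul_le_mul_of_nonneg_right hN h6

theorem theta_pos (S : Finset ℕ) : (0 : ℝ) < ∏ i ∈ S, (1 - 1 / 2 ^ (i + 1) : ℝ) := by
  refine Finset.prod_pos fun i _ => ?_
  have : (1 : ℝ) / 2 ^ (i + 1) ≤ 1 / 2 := by
    apply one_div_le_one_div_of_le (by norm_num)
    calc (2 : ℝ) = 2 ^ 1 := by norm_num
      _ ≤ 2 ^ (i + 1) := pow_le_pow_right₀ (by norm_num) (by omega)
  linarith

end KTT
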