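import Pool.Agent.Work.KTT.Base

/-!
# Cones over planar point sets, characteristic two
-/

set_option autoImplicit false

open Finset SimpleGraph

namespace KTT

variable {F : Type*} [Field F]

/-- the alternating form on `F²` (in characteristic two) -/
def bf (p q : F × F) : F := p.1 * q.2 + q.1 * p.2

theorem bf_comm (p q : F × F) : bf p q = bf q p := by
  unfold bf; ring

theorem bf_add_left (p p' q : F × F) : bf (p + p') q = bf p q + bf p' q := by
  unfold bf; simp only [Prod.fst_add, Prod.snd_add]; ring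

theorem bf_add_right (p q q' : F × F) : bf p (q + q') = bf p q + bf p q' := by
  unfold bf; simp only [Prod.fst_add, Prod.snd_add]; ring

theorem bf_smul_left (c : F) (p q : F × F) : bf (c • p) q = c * bf p q := by
  unfold bf; simp only [Prod.smul_fst, Prod.smul_snd, smul_eq_mul]; ring

variable [CharP F 2]

theorem bf_self (p : F × F) : bf p p = 0 := by
  unfold bf; rw [mul_comm p.1 p.2]; exact CharTwo.add_self_eq_zero _

theorem eq_of_add_eq_zero' {a b : F} (h : a + b = 0) : a = b := by
  rwa [CharTwo.add_eq_zero] at h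

/-- two vectors orthogonal to the same non-zero vector are parallel -/
theorem bf_trans {v w w' : F × F} (hv : v ≠ 0) (h : bf v w = 0) (h' : bf v w' = 0) :
    bf w w' = 0 := by
  unfold bf at *
  have e1 := eq_of_add_eq_zero' h
  have e2 := eq_of_add_eq_zero' h'
  have h1 : v.1 * (w.1 * w'.2 + w'.1 * w.2) = 0 := by
    have : v.1 * (w.1 * w'.2 + w'.1 * w.2) = w.1 * (v.1 * w'.2) + w'.1 * (v.1 * w.2) := by ring
    rw [this, e1, e2]
    have : w.1 * (w'.1 * v.2) + w'.1 * (w.1 * v.2) = w.1 * w'.1 * v.2 + w.1 * w'.1 * v.2 := by ring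
    rw [this]; exact CharTwo.add_self_eq_zero _
  have h2 : v.2 * (w.1 * w'.2 + w'.1 * w.2) = 0 := by
    have : v.2 * (w.1 * w'.2 + w'.1 * w.2) = w'.2 * (w.1 * v.2) + w.2 * (w'.1 * v.2) := by ring
    rw [this, ← e1, ← e2]
    have : w'.2 * (v.1 * w.2) + w.2 * (v.1 * w'.2) = v.1 * w.2 * w'.2 + v.1 * w.2 * w'.2 := by ring
    rw [this]; exact CharTwo.add_self_eq_zero _
  rcases mul_eq_zero.1 h1 with h3 | h3
  · rcases mul_eq_zero.1 h2 with h4 | h4
    · exact absurd (Prod.ext h3 h4) hv
    · exact h4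
  · exact h3

/-- the ratio of two parallel vectors -/
noncomputable def ratio (v w : F × F) : F := by
  classical exact if w.1 ≠ 0 then v.1 / w.1 else v.2 / w.2

theorem ratio_smul {v w : F × F} (hw : w ≠ 0) (h : bf v w = 0) : v = ratio v w • w := by
  unfold ratio
  unfold bf at h
  have e := eq_of_add_eq_zero' h
  by_cases h1 : w.1 = 0
  · have h2 : w.2 ≠ 0 := fun h2 => hw (Prod.ext h1 h2)
    rw [if_neg (by simpa using h1)]
    rw [h1, zero_mul] at e
    have h3 : v.1 = 0 := by
      rcases mul_eq_zero.1 e with h | h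
      · exact h
      · exact absurd h h2
    refine Prod.ext ?_ ?_
    · rw [Prod.smul_fst, smul_eq_mul, h1, mul_zero, h3]
    · rw [Prod.smul_snd, smul_eq_mul]; field_simp
  · rw [if_pos h1]
    refine Prod.ext ?_ ?_
    · rw [Prod.smul_fst, smul_eq_mul]; field_simp
    · rw [Prod.smul_snd, smul_eq_mul]
      field_simp
      rw [mul_comm v.2 w.1, ← e]

variable [Fintype F] [DecidableEq F]

/-- The graph on `K × F`. -/
def coneGraph (K : Finset (F × F)) : SimpleGraph (K × F) where
  Adj x y := x ≠ y ∧ x.2 + y.2 = bf (x.1 : F × F) y.1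
  symm := ⟨fun x y h => ⟨h.1.symm, by rw [add_comm, h.2, bf_comm]⟩⟩
  loopless := ⟨fun x h => h.1 rfl⟩

omit [Fintype F] in
theorem coneGraph_free (K : Finset (F × F)) (t : ℕ)
    (hline : ∀ v : F × F, v ≠ 0 → ∀ z : F, (K.filter fun p => bf v p = z).card ≤ t) [Fintype F] :
    KFree (coneGraph K) t := by
  rw [kfree_iff]
  rintro ⟨p1, z1⟩ ⟨p2, z2⟩ hne S hS
  by_cases hp : (p1 : F × F) = p2
  · have hp' : p1 = p2 := Subtype.ext hp
    have : S = ∅ := by
      rw [Finset.eq_empty_iff_forall_notMem]
      intro x hx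
      obtain ⟨h1, h2⟩ := hS x hx
      have h3 := h1.2
      have h4 := h2.2
      simp only at h3 h4
      rw [← hp', ← h3] at h4
      apply hne
      rw [hp', add_right_cancel h4]
    simp [this]
  · refine le_trans ?_ (hline ((p1 : F × F) + p2) ?_ (z1 + z2))
    · refine Finset.card_le_card_of_injOn (fun x => (x.1 : F × F)) ?_ ?_
      · intro x hx
        obtain ⟨h1, h2⟩ := hS x hx
        have h3 := h1.2
        have h4 := h2.2
        simp only at h3 h4
        rw [Finset.mem_coe, Finset.mem_filter]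
        refine ⟨x.1.2, ?_⟩
        rw [bf_add_left, ← h3, ← h4]
        have : z1 + x.2 + (z2 + x.2) = z1 + z2 + (x.2 + x.2) := by ring
        rw [this, CharTwo.add_self_eq_zero, add_zero]
      · intro x hx y hy hxy
        simp only at hxy
        have hx' := (hS x hx).1.2
        have hy' := (hS y hy).1.2
        simp only at hx' hy'
        rw [hxy, ← hy'] at hx'
        exact Prod.ext (Subtype.ext hxy) (add_left_cancel hx')
    · intro h
      apply hp
      refine Prod.ext ?_ ?_
      · exact eq_of_add_eq_zero' (congrArg Prod.fst h)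
      · exact eq_of_add_eq_zero' (congrArg Prod.snd h)

/-- the full lines -/
def fullLines (K : Finset (F × F)) (t : ℕ) : Finset (F × F) :=
  univ.filter fun w => w ≠ 0 ∧ (K.filter fun p => bf w p = 1).card = t

/-- pairs of distinct parallel full lines -/
def parPairs (K : Finset (F × F)) (t : ℕ) : Finset ((F × F) × (F × F)) :=
  (fullLines K t ×ˢ fullLines K t).filter fun x => x.1 ≠ x.2 ∧ bf x.1 x.2 = 0

/-- the tuples that parametrise the good pairs -/
def tuples (K : Finset (F × F)) (t : ℕ) :
    Finset (((F × F) × (F × F)) × ((F × F) × (F × F)) × F) :=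
  (parPairs K t).biUnion fun x =>
    (({x} : Finset ((F × F) × (F × F))) ×ˢ ((K.filter fun p => bf x.1 p = 1).offDiag ×ˢ univ))

omit [CharP F 2] in
theorem mem_tuples (K : Finset (F × F)) (t : ℕ)
    (x : ((F × F) × (F × F)) × ((F × F) × (F × F)) × F) :
    x ∈ tuples K t ↔ x.1 ∈ parPairs K t ∧ x.2.1.1 ∈ K ∧ x.2.1.2 ∈ K ∧ x.2.1.1 ≠ x.2.1.2 ∧
      bf x.1.1 x.2.1.1 = 1 ∧ bf x.1.1 x.2.1.2 = 1 := by
  unfold tuples
  simp only [Finset.mem_biUnion, Finset.mem_product, Finset.mem_singleton, Finset.mem_offDiag,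
    Finset.mem_filter, Finset.mem_univ, and_true]
  constructor
  · rintro ⟨y, hy, h1, h2, h3, h4⟩
    subst h1
    exact ⟨hy, h2.1, h3.1, h4, h2.2, h3.2⟩
  · rintro ⟨h1, h2, h3, h4, h5, h6⟩
    exact ⟨x.1, h1, rfl, ⟨h2, h5⟩, ⟨h3, h6⟩, h4⟩

omit [CharP F 2] in
theorem card_tuples (K : Finset (F × F)) (t : ℕ) :
    (tuples K t).card = (parPairs K t).card * (t * (t - 1) * Fintype.card F) := by
  unfold tuples
  rw [Finset.card_biUnion]
  · rw [Finset.sum_congr rfl (g := fun _ => t * (t - 1) * Fintype.card F)]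
    · rw [Finset.sum_const, smul_eq_mul]
    · intro x hx
      have h1 : x.1 ∈ fullLines K t := by
        unfold parPairs at hx
        rw [Finset.mem_filter, Finset.mem_product] at hx
        exact hx.1.1
      unfold fullLines at h1
      rw [Finset.mem_filter] at h1
      rw [Finset.card_product, Finset.card_singleton, one_mul, Finset.card_product,
        Finset.offDiag_card, h1.2.2, Finset.card_univ, Nat.mul_sub, mul_one]
  · intro x _ y _ hxy
    rw [Function.onFun, Finset.disjoint_left]
    intro z hz hz'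
    simp only [Finset.mem_product, Finset.mem_singleton] at hz hz'
    exact hxy (hz.1.symm.trans hz'.1)

/-- the pair of vertices given by a tuple -/
noncomputable def pairOf (K : Finset (F × F)) (t : ℕ) (x : tuples K t) : (K × F) × (K × F) :=
  ((⟨x.1.2.1.1, ((mem_tuples K t x.1).1 x.2).2.1⟩, x.1.2.2),
    (⟨x.1.2.1.2, ((mem_tuples K t x.1).1 x.2).2.2.1⟩,
      x.1.2.2 + ratio (x.1.2.1.1 + x.1.2.1.2) x.1.1.2))

omit [CharP F 2] in
theorem par_facts (K : Finset (F × F)) (t : ℕ) {w w' : F × F} (h : (w, w') ∈ parPairs K t) :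
    w ≠ 0 ∧ w' ≠ 0 ∧ (K.filter fun p => bf w p = 1).card = t ∧
      (K.filter fun p => bf w' p = 1).card = t ∧ w ≠ w' ∧ bf w w' = 0 := by
  unfold parPairs fullLines at h
  simp only [Finset.mem_filter, Finset.mem_product, Finset.mem_univ, true_and] at h
  exact ⟨h.1.1.1, h.1.2.1, h.1.1.2, h.1.2.2, h.2.1, h.2.2⟩

omit [Fintype F] [DecidableEq F] in
theorem add_ne_zero' {p q : F × F} (h : p ≠ q) : p + q ≠ 0 := by
  intro h0
  apply h
  refine Prod.ext ?_ ?_
  · exact eq_of_add_eq_zero' (congrArg Prod.fst h0)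
  · exact eq_of_add_eq_zero' (congrArg Prod.snd h0)

theorem tuple_facts (K : Finset (F × F)) (t : ℕ)
    {x : ((F × F) × (F × F)) × ((F × F) × (F × F)) × F} (hx : x ∈ tuples K t) :
    x.2.1.1 + x.2.1.2 = ratio (x.2.1.1 + x.2.1.2) x.1.2 • x.1.2 ∧
    x.2.1.1 + x.2.1.2 = bf (x.2.1.1 + x.2.1.2) x.2.1.1 • x.1.1 ∧
    x.2.1.1 + x.2.1.2 ≠ 0 := by
  obtain ⟨h1, -, -, hne, h2, h3⟩ := (mem_tuples K t x).1 hx
  obtain ⟨hw, hw', -, -, -, hpar⟩ := par_facts K t (w := x.1.1) (w' := x.1.2) h1
  have h4 : bf x.1.1 (x.2.1.1 + x.2.1.2) = 0 := by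
    rw [bf_add_right, h2, h3, CharTwo.add_self_eq_zero]
  have h5 : bf (x.2.1.1 + x.2.1.2) x.1.2 = 0 := bf_trans hw h4 hpar
  have h6 : bf (x.2.1.1 + x.2.1.2) x.1.1 = 0 := by rw [bf_comm]; exact h4
  refine ⟨ratio_smul hw' h5, ?_, add_ne_zero' hne⟩
  have h7 := ratio_smul hw h6
  have h8 : bf (x.2.1.1 + x.2.1.2) x.2.1.1 = ratio (x.2.1.1 + x.2.1.2) x.1.1 := by
    conv_lhs => rw [h7]
    rw [bf_smul_left, h2, mul_one]
  rw [h8]
  exact h7

theorem pairOf_injective (K : Finset (F × F)) (t : ℕ) : Function.Injective (pairOf K t) := by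
  rintro ⟨⟨⟨w, w'⟩, ⟨⟨p1, p2⟩, z⟩⟩, hx⟩ ⟨⟨⟨u, u'⟩, ⟨⟨q1, q2⟩, y⟩⟩, hy⟩ h
  simp only [pairOf, Prod.mk.injEq, Subtype.mk.injEq] at h
  obtain ⟨⟨h1, h2⟩, h3, h4⟩ := h
  subst h1 h2 h3
  have hr := add_left_cancel h4
  obtain ⟨a1, a2, a3⟩ := tuple_facts K t hx
  obtain ⟨b1, b2, -⟩ := tuple_facts K t hy
  simp only at a1 a2 a3 b1 b2
  have hw : w = u := by
    have h0 : bf (p1 + p2) p1 ≠ 0 := by
      intro h0
      rw [h0, zero_smul] at a2
      exact a3 a2
    have h5 := a2.symm.trans b2
    exact smul_right_injective _ h0 h5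
  have hw' : w' = u' := by
    have h0 : ratio (p1 + p2) w' ≠ 0 := by
      intro h0
      rw [h0, zero_smul] at a1
      exact a3 a1
    have h5 := a1.symm.trans b1
    rw [← hr] at h5
    exact smul_right_injective _ h0 h5
  subst hw hw'
  rfl

/-- the good pairs of the cone graph -/
theorem cone_good (K : Finset (F × F)) (t : ℕ) (ht : 1 ≤ t) (x : tuples K t) :
    (pairOf K t x).1 ≠ (pairOf K t x).2 ∧ ∃ A B : Finset (K × F), A.card = t ∧ B.card = t ∧
      (pairOf K t x).1 ∈ A ∧ (pairOf K t x).2 ∈ A ∧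
      ∀ a ∈ A, ∀ b ∈ B, (coneGraph K).Adj a b := by
  obtain ⟨⟨⟨w, w'⟩, ⟨⟨p1, p2⟩, z⟩⟩, hx⟩ := x
  obtain ⟨h1, hp1, hp2, hne, hb1, hb2⟩ := (mem_tuples K t _).1 hx
  obtain ⟨f1, f2, f3⟩ := tuple_facts K t hx
  simp only at h1 hp1 hp2 hne hb1 hb2 f1 f2 f3
  obtain ⟨hw, hw', hc, hc', hww, hpar⟩ := par_facts K t h1
  obtain ⟨ps, hps⟩ : (K.filter fun p => bf w' p = 1).Nonempty := Finset.card_pos.1 (by omega)
  rw [Finset.mem_filter] at hps
  have hdist : ∀ p, bf w p = 1 → bf w' p = 1 → False := by
    intro p h2 h3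
    have h4 : bf (w + w') p = 0 := by rw [bf_add_left, h2, h3, CharTwo.add_self_eq_zero]
    have h5 : bf (w + w') w = 0 := by
      rw [bf_add_left, bf_self, bf_comm w' w, hpar, add_zero]
    have h6 := bf_trans (add_ne_zero' hww) h4 h5
    rw [bf_comm, h2] at h6
    exact one_ne_zero h6
  refine ⟨?_, ?_⟩
  · intro h
    simp only [pairOf, Prod.mk.injEq, Subtype.mk.injEq] at h
    exact hne h.1
  · let A : Finset (K × F) := (univ : Finset K).filter (fun p : K => bf w (p : F × F) = 1) |>.image
      fun p : K => (p, bf (p : F × F) ps + (z + bf p1 ps))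
    let B : Finset (K × F) := (univ : Finset K).filter (fun p : K => bf w' (p : F × F) = 1) |>.image
      fun p : K => (p, z + bf p1 (p : F × F))
    have hcard : ∀ v : F × F, ((univ : Finset K).filter (fun p : K => bf v (p : F × F) = 1)).card =
        (K.filter fun p => bf v p = 1).card := by
      intro v
      refine Finset.card_bij (fun p _ => (p : F × F)) ?_ ?_ ?_
      · intro p hp
        rw [Finset.mem_filter] at hp ⊢
        exact ⟨p.2, hp.2⟩
      · intro p _ q _ h
        exact Subtype.ext h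
      · intro p hp
        rw [Finset.mem_filter] at hp
        exact ⟨⟨p, hp.1⟩, by simp [hp.2], rfl⟩
    refine ⟨A, B, ?_, ?_, ?_, ?_, ?_⟩
    · rw [Finset.card_image_of_injective _ (fun p q h => (Prod.mk.inj h).1), hcard, hc]
    · rw [Finset.card_image_of_injective _ (fun p q h => (Prod.mk.inj h).1), hcard, hc']
    · rw [Finset.mem_image]
      refine ⟨⟨p1, hp1⟩, by simp [hb1], ?_⟩
      simp only [pairOf, Prod.mk.injEq, true_and]
      have : bf p1 ps + (z + bf p1 ps) = z + (bf p1 ps + bf p1 ps) := by ring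
      rw [this, CharTwo.add_self_eq_zero, add_zero]
    · rw [Finset.mem_image]
      refine ⟨⟨p2, hp2⟩, by simp [hb2], ?_⟩
      simp only [pairOf, Prod.mk.injEq, true_and]
      have e1 : bf (p1 + p2) ps = ratio (p1 + p2) w' := by
        conv_lhs => rw [f1]
        rw [bf_smul_left, hps.2, mul_one]
      rw [← e1, bf_add_left]
      ring
    · intro a ha b hb
      rw [Finset.mem_image] at ha hb
      obtain ⟨p, hp, rfl⟩ := ha
      obtain ⟨p', hp', rfl⟩ := hb
      rw [Finset.mem_filter] at hp hp'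
      refine ⟨?_, ?_⟩
      · intro h
        have h2 := (Prod.mk.inj h).1
        rw [h2] at hp
        exact hdist _ hp.2 hp'.2
      · simp only
        have g1 : bf w ((p : F × F) + p1) = 0 := by
          rw [bf_add_right, hp.2, hb1, CharTwo.add_self_eq_zero]
        have g2 : bf w' (ps + (p' : F × F)) = 0 := by
          rw [bf_add_right, hps.2, hp'.2, CharTwo.add_self_eq_zero]
        have g3 : bf w (ps + (p' : F × F)) = 0 := by
          refine bf_trans hw' ?_ g2
          rw [bf_comm]; exact hpar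
        have g4 := bf_trans hw g1 g3
        rw [bf_add_left, bf_add_right, bf_add_right] at g4
        have g5 : bf (p : F × F) ps + (z + bf p1 ps) + (z + bf p1 (p' : F × F)) =
            bf (p : F × F) p' + (z + z) +
            (bf (p : F × F) ps + bf (p : F × F) p' + (bf p1 ps + bf p1 (p' : F × F))) -
              2 * bf (p : F × F) p' := by ring
        rw [g5, g4, CharTwo.two_eq_zero, CharTwo.add_self_eq_zero]
        ring

/-- the number of directions -/
theorem card_par (K : Finset (F × F)) (t : ℕ) :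
    (fullLines K t).card ^ 2 ≤
      (Fintype.card F + 1) * ((parPairs K t).card + (fullLines K t).card) := by
  let d : F × F → Option F := fun w => if w.1 = 0 then none else some (w.2 / w.1)
  have hd : ∀ w w', w ≠ 0 → w' ≠ 0 → d w = d w' → bf w w' = 0 := by
    intro w w' hw hw' h
    simp only [d] at h
    unfold bf
    by_cases h1 : w.1 = 0 <;> by_cases h2 : w'.1 = 0
    · rw [h1, h2]; ring
    · rw [if_pos h1, if_neg h2] at h; exact absurd h (by simp)
    · rw [if_neg h1, if_pos h2] at h; exact absurd h (by simp)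
    · rw [if_neg h1, if_neg h2, Option.some.injEq] at h
      rw [div_eq_div_iff h1 h2] at h
      rw [← mul_comm w.2, h, mul_comm w'.2]
      exact CharTwo.add_self_eq_zero _
  have h1 : (fullLines K t).card = ∑ c : Option F, ((fullLines K t).filter fun w => d w = c).card :=
    Finset.card_eq_sum_card_fiberwise (fun _ _ => Finset.mem_univ _)
  have h2 : (∑ c : Option F, ((fullLines K t).filter fun w => d w = c).card) ^ 2 ≤
      (univ : Finset (Option F)).card *
        ∑ c : Option F, ((fullLines K t).filter fun w => d w = c).card ^ 2 :=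
    sq_sum_le_card_mul_sum_sq
  have h3 : ∑ c : Option F, ((fullLines K t).filter fun w => d w = c).card ^ 2 =
      ((fullLines K t ×ˢ fullLines K t).filter fun x => d x.1 = d x.2).card := by
    rw [Finset.card_eq_sum_card_fiberwise (f := fun x => d x.1) (t := univ)
      (fun _ _ => Finset.mem_univ _)]
    refine Finset.sum_congr rfl fun c _ => ?_
    rw [sq, ← Finset.card_product]
    congr 1
    ext ⟨x, y⟩
    simp only [Finset.mem_product, Finset.mem_filter]
    constructor
    · rintro ⟨⟨h1, h2⟩, h3, h4⟩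
      exact ⟨⟨⟨h1, h3⟩, h2.trans h4.symm⟩, h2⟩
    · rintro ⟨⟨⟨h1, h2⟩, h3⟩, h4⟩
      exact ⟨⟨h1, h4⟩, h2, h3 ▸ h4⟩
  have h4 : ((fullLines K t ×ˢ fullLines K t).filter fun x => d x.1 = d x.2).card ≤
      (parPairs K t).card + (fullLines K t).card := by
    have h5 : ((fullLines K t ×ˢ fullLines K t).filter fun x => d x.1 = d x.2) ⊆
        parPairs K t ∪ (fullLines K t).image fun w => (w, w) := by
      rintro ⟨x, y⟩ hxy
      rw [Finset.mem_filter, Finset.mem_product] at hxy
      rw [Finset.mem_union]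
      by_cases h6 : x = y
      · right
        rw [Finset.mem_image]
        exact ⟨x, hxy.1.1, by rw [← h6]⟩
      · left
        unfold parPairs
        rw [Finset.mem_filter, Finset.mem_product]
        refine ⟨hxy.1, h6, hd x y ?_ ?_ hxy.2⟩
        · have := hxy.1.1
          unfold fullLines at this
          rw [Finset.mem_filter] at this
          exact this.2.1
        · have := hxy.1.2
          unfold fullLines at this
          rw [Finset.mem_filter] at this
          exact this.2.1
    refine (Finset.card_le_card h5).trans ((Finset.card_union_le _ _).trans ?_)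
    exact Nat.add_le_add_left Finset.card_image_le _
  rw [h1]
  refine h2.trans ?_
  rw [← h1, Finset.card_univ, Fintype.card_option, h3]
  exact Nat.mul_le_mul_left _ h4

/-- **Cone construction.** -/
theorem cone_main (K : Finset (F × F)) {t : ℕ} (ht : 2 ≤ t)
    (hline : ∀ v : F × F, v ≠ 0 → ∀ z : F, (K.filter fun p => bf v p = z).card ≤ t)
    {k n : ℕ} (hn : k * (K.card * Fintype.card F) ≤ n) :
    k * Fintype.card F * (fullLines K t).card ^ 2 ≤
      (Fintype.card F + 1) * (2 * N t n + k * Fintype.card F * (fullLines K t).card) := by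
  have h1 := N_ge (coneGraph K) (k := k) (n := n) (by omega : 1 ≤ t) (coneGraph_free K t hline)
    (by simpa using hn) ((univ : Finset (tuples K t)).image (pairOf K t)) (by
      intro p hp
      rw [Finset.mem_image] at hp
      obtain ⟨x, -, rfl⟩ := hp
      exact cone_good K t (by omega) x)
  rw [Finset.card_image_of_injective _ (pairOf_injective K t), Finset.card_univ,
    Fintype.card_coe, card_tuples] at h1
  have hpos : 0 < t * (t - 1) := Nat.mul_pos (by omega) (by omega)
  have h2 : k * Fintype.card F * (parPairs K t).card ≤ 2 * N t n := by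
    have h3 : t * (t - 1) * (k * Fintype.card F * (parPairs K t).card) ≤
        t * (t - 1) * (2 * N t n) := by
      calc _ = k * ((parPairs K t).card * (t * (t - 1) * Fintype.card F)) := by ring
        _ ≤ _ := h1
        _ = _ := by ring
    exact Nat.le_of_mul_le_mul_left h3 hpos
  have h4 := card_par K t
  calc k * Fintype.card F * (fullLines K t).card ^ 2
      ≤ k * Fintype.card F *
        ((Fintype.card F + 1) * ((parPairs K t).card + (fullLines K t).card)) :=
        Nat.mul_le_mul_left _ h4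
    _ = (Fintype.card F + 1) * (k * Fintype.card F * (parPairs K t).card +
        k * Fintype.card F * (fullLines K t).card) := by ring
    _ ≤ _ := Nat.mul_le_mul_left _ (Nat.add_le_add_right h2 _)

end KTT
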