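import Pool.Agent.Work.KTT.Arc
import Pool.Agent.Work.KTT.Code

/-!
# Counting full lines
-/

set_option autoImplicit false

open Finset

namespace KTT

variable {F : Type*} [Field F] [Fintype F] [DecidableEq F] [Algebra (ZMod 2) F]
variable {ι : Type*} [Fintype ι] [DecidableEq ι]

/-- the linear map given by a family -/
def emb (α : ι → F) (c : ι → ZMod 2) : F := ∑ i, c i • α i

/-- the image of the code in `F` -/
def codeSet (α : ι → F) (A : Finset (ι → ZMod 2)) : Finset F := A.image (emb α)

omit [Fintype F] [DecidableEq F] [DecidableEq ι] in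
theorem emb_ne_zero {α : ι → F} (hα : LinearIndependent (ZMod 2) α) {c : ι → ZMod 2} (hc : c ≠ 0) :
    emb α c ≠ 0 := by
  intro h
  apply hc
  funext i
  exact (Fintype.linearIndependent_iff.1 hα) c h i

omit [Fintype F] [DecidableEq F] [DecidableEq ι] in
theorem emb_injective {α : ι → F} (hα : LinearIndependent (ZMod 2) α) :
    Function.Injective (emb α) := by
  intro c c' h
  by_contra hne
  have h1 : c - c' ≠ 0 := sub_ne_zero.2 hne
  apply emb_ne_zero hα h1
  unfold emb at h ⊢
  have : ∀ i, (c - c') i • α i = c i • α i - c' i • α i := by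
    intro i; rw [Pi.sub_apply, sub_smul]
  rw [Finset.sum_congr rfl fun i _ => this i, Finset.sum_sub_distrib, h, sub_self]

omit [Fintype F] [DecidableEq ι] in
theorem card_codeSet {α : ι → F} (hα : LinearIndependent (ZMod 2) α) (A : Finset (ι → ZMod 2)) :
    (codeSet α A).card = A.card := Finset.card_image_of_injective _ (emb_injective hα)

omit [Fintype F] [DecidableEq ι] in
theorem zero_notMem_codeSet {α : ι → F} (hα : LinearIndependent (ZMod 2) α)
    {A : Finset (ι → ZMod 2)} (hA : 0 ∉ A) : (0 : F) ∉ codeSet α A := by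
  intro h
  unfold codeSet at h
  rw [Finset.mem_image] at h
  obtain ⟨c, hc, h⟩ := h
  by_cases hc0 : c = 0
  · exact hA (hc0 ▸ hc)
  · exact emb_ne_zero hα hc0 h

omit [Fintype F] [DecidableEq F] [DecidableEq ι] in
theorem tr_emb (α : ι → F) (c : ι → ZMod 2) (g : F) :
    tr (emb α c * g) = ∑ i, c i * tr (α i * g) := by
  unfold emb
  rw [Finset.sum_mul, tr_sum]
  refine Finset.sum_congr rfl fun i _ => ?_
  rw [smul_mul_assoc, tr_smul]

omit [Fintype F] [DecidableEq ι] in
theorem card_codeSet_filter {α : ι → F} (hα : LinearIndependent (ZMod 2) α)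
    (A : Finset (ι → ZMod 2)) (g : F) :
    ((codeSet α A).filter fun a => tr (a * g) = 1).card = wt A fun i => tr (α i * g) := by
  unfold codeSet wt
  rw [Finset.filter_image, Finset.card_image_of_injective _ (emb_injective hα)]
  congr 1
  ext c
  simp only [Finset.mem_filter, tr_emb]

omit [Fintype F] [DecidableEq F] [DecidableEq ι] in
theorem emb_sq (α : ι → F) (c : ι → ZMod 2) : emb (fun i => α i ^ 2) c = emb α c ^ 2 := by
  have := charP2 (F := F)
  unfold emb
  rw [sum_pow_char 2]
  refine Finset.sum_congr rfl fun i _ => ?_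
  have hc : c i = 0 ∨ c i = 1 := by
    have : ∀ z : ZMod 2, z = 0 ∨ z = 1 := by decide
    exact this _
  rcases hc with h | h <;> rw [h] <;> simp

omit [Algebra (ZMod 2) F] in
theorem card_roots_le {p : Polynomial F} (hp : p ≠ 0) :
    (univ.filter fun y : F => p.eval y = 0).card ≤ p.natDegree := by
  have h1 : (univ.filter fun y : F => p.eval y = 0) ⊆ p.roots.toFinset := by
    intro y hy
    rw [Finset.mem_filter] at hy
    rw [Multiset.mem_toFinset, Polynomial.mem_roots hp]
    exact hy.2
  exact (Finset.card_le_card h1).trans ((Multiset.toFinset_card_le _).trans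
    (Polynomial.card_roots' p))

omit [DecidableEq F] in
/-- A general count: a family of patterns that is affine in `x ^ (2^r)`. -/
theorem card_pattern_pow {β : ι → F} (hβ : LinearIndependent (ZMod 2) β) (b : ι → ZMod 2)
    (P : Finset (ι → ZMod 2)) (r : ℕ) :
    2 ^ Fintype.card ι *
      (univ.filter fun x : F => (fun i => tr (x ^ 2 ^ r * β i)) + b ∈ P).card =
      P.card * Fintype.card F := by
  have := charP2 (F := F)
  rw [← card_pattern hβ b P]
  congr 1
  have hbij : Function.Bijective fun x : F => x ^ 2 ^ r := by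
    have hinj : Function.Injective fun x : F => x ^ 2 ^ r := by
      intro x y h
      simp only at h
      have h2 : (x - y) ^ 2 ^ r = 0 := by rw [sub_pow_char_pow, h, sub_self]
      exact sub_eq_zero.1 (pow_eq_zero_iff (by positivity) |>.1 h2)
    exact Finite.injective_iff_bijective.1 hinj
  refine Finset.card_bij (fun x _ => x ^ 2 ^ r) ?_ ?_ ?_
  · intro x hx
    rw [Finset.mem_filter] at hx ⊢
    exact ⟨Finset.mem_univ _, hx.2⟩
  · intro x _ y _ h
    exact hbij.1 h
  · intro y hy
    obtain ⟨x, hx⟩ := hbij.2 y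
    simp only at hx
    refine ⟨x, ?_, hx⟩
    rw [Finset.mem_filter] at hy ⊢
    rw [hx]
    exact ⟨Finset.mem_univ _, hy.2⟩

/-! ### the even case -/

theorem even_count {d : F} {α : ι → F} (hα : LinearIndependent (ZMod 2) α)
    (A : Finset (ι → ZMod 2)) (w : ℕ) :
    (Fintype.card F - 2 ^ Fintype.card ι) *
      ((univ.filter fun φ : ι → ZMod 2 => wt A φ = w).card * Fintype.card F) ≤
    2 ^ Fintype.card ι * (univ.filter fun v : F × F => wt A (fun i => tr (α i * Qf d v)) = w).card := by
  have := charP2 (F := F)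
  set N := (univ.filter fun φ : ι → ZMod 2 => wt A φ = w) with hN
  let bad : Finset F := (univ.erase (0 : ι → ZMod 2)).biUnion fun c =>
    univ.filter fun y : F => emb α c + emb α c ^ 2 * y ^ 2 = 0
  have hbad : bad.card ≤ 2 ^ Fintype.card ι := by
    refine (Finset.card_biUnion_le_card_mul _ _ 1 ?_).trans ?_
    · intro c hc
      rw [Finset.mem_erase] at hc
      have hc0 := emb_ne_zero hα hc.1
      rw [Finset.card_le_one]
      intro y hy y' hy'
      rw [Finset.mem_filter] at hy hy'
      have h1 := hy.2.trans hy'.2.symm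
      have h2 := add_left_cancel h1
      have h3 := mul_left_cancel₀ (pow_ne_zero 2 hc0) h2
      have h4 : (y + y') ^ 2 = 0 := by
        rw [CharTwo.add_sq, h3, CharTwo.add_self_eq_zero]
      exact eq_of_add_eq_zero' (pow_eq_zero_iff (two_ne_zero) |>.1 h4)
    · rw [mul_one]
      refine (Finset.card_erase_le).trans ?_
      rw [Finset.card_univ, Fintype.card_fun, ZMod.card]
  have hy : ∀ y : F, y ∉ bad → 2 ^ Fintype.card ι *
      (univ.filter fun x : F => wt A (fun i => tr (α i * Qf d (x, y))) = w).card =
      N.card * Fintype.card F := by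
    intro y hy
    have hβ : LinearIndependent (ZMod 2) fun i => α i + α i ^ 2 * y ^ 2 := by
      rw [Fintype.linearIndependent_iff]
      intro c hc
      by_contra hne
      push Not at hne
      obtain ⟨i, hi⟩ := hne
      have hc0 : c ≠ 0 := fun h => hi (by rw [h]; rfl)
      apply hy
      rw [Finset.mem_biUnion]
      refine ⟨c, by simp [hc0], ?_⟩
      rw [Finset.mem_filter]
      refine ⟨Finset.mem_univ _, ?_⟩
      rw [← emb_sq]
      rw [← hc]
      unfold emb
      rw [Finset.sum_mul, ← Finset.sum_add_distrib]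
      refine Finset.sum_congr rfl fun i _ => ?_
      rw [smul_add, smul_mul_assoc]
    have h1 := card_pattern_pow hβ (fun i => tr (α i * (d * y ^ 2))) N 1
    rw [← h1]
    congr 2
    ext x
    simp only [Finset.mem_filter, Finset.mem_univ, true_and, hN]
    have h2 : (fun i => tr (α i * Qf d (x, y))) =
        (fun i => tr (x ^ 2 ^ 1 * (α i + α i ^ 2 * y ^ 2))) + fun i => tr (α i * (d * y ^ 2)) := by
      funext i
      rw [Pi.add_apply]
      unfold Qf
      simp only
      have h3 : α i * (x ^ 2 + x * y + d * y ^ 2) = α i * x ^ 2 + (α i * x * y) + α i * (d * y ^ 2) := by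
        ring
      have h4 : x ^ 2 ^ 1 * (α i + α i ^ 2 * y ^ 2) = α i * x ^ 2 + (α i * x * y) ^ 2 := by
        ring
      rw [h3, h4, tr_add, tr_add, tr_add, tr_sq]
    rw [h2]
  have hsum : (univ.filter fun v : F × F => wt A (fun i => tr (α i * Qf d v)) = w).card =
      ∑ y : F, (univ.filter fun x : F => wt A (fun i => tr (α i * Qf d (x, y))) = w).card := by
    rw [Finset.card_eq_sum_card_fiberwise (f := Prod.snd) (t := univ)
      (fun _ _ => Finset.mem_coe.2 (Finset.mem_univ _))]
    refine Finset.sum_congr rfl fun y _ => ?_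
    refine Finset.card_bij (fun v _ => v.1) ?_ ?_ ?_
    · rintro ⟨x, y'⟩ h
      simp only [Finset.mem_filter, Finset.mem_univ, true_and] at h ⊢
      obtain ⟨h1, h2⟩ := h
      rw [← h2]; exact h1
    · rintro ⟨x, y'⟩ h ⟨x', y''⟩ h' hxx
      simp only [Finset.mem_filter, Finset.mem_univ, true_and] at h h' hxx
      exact Prod.ext hxx (h.2.trans h'.2.symm)
    · intro x h
      simp only [Finset.mem_filter, Finset.mem_univ, true_and] at h
      exact ⟨(x, y), by simp [h], rfl⟩
  rw [hsum, Finset.mul_sum]
  calc (Fintype.card F - 2 ^ Fintype.card ι) * (N.card * Fintype.card F)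
      ≤ (badᶜ).card * (N.card * Fintype.card F) := by
        apply Nat.mul_le_mul_right
        rw [Finset.card_compl]
        omega
    _ = ∑ y ∈ badᶜ, N.card * Fintype.card F := by rw [Finset.sum_const, smul_eq_mul]
    _ = ∑ y ∈ badᶜ, 2 ^ Fintype.card ι *
      (univ.filter fun x : F => wt A (fun i => tr (α i * Qf d (x, y))) = w).card := by
        refine Finset.sum_congr rfl fun y h => ?_
        rw [Finset.mem_compl] at h
        exact (hy y h).symm
    _ ≤ _ := Finset.sum_le_sum_of_subset_of_nonneg (Finset.subset_univ _)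
        (fun _ _ _ => Nat.zero_le _)

/-- All lines meet the arc in few points. -/
theorem arc_line_le {d : F} (hd : tr d = 1) {A : Finset F} {w : ℕ}
    (hA : A.card ≤ 2 * w) (hmax : ∀ g : F, (A.filter fun a => tr (a * g) = 1).card ≤ w)
    {v : F × F} (hv : v ≠ 0) (z : F) :
    ((arc d A).filter fun p => bf v p = z).card ≤ 2 * w := by
  by_cases hz : z = 0
  · subst hz
    exact (card_arc_line_zero hd hv).trans hA
  · have h1 : ((arc d A).filter fun p => bf v p = z) =
        ((arc d A).filter fun p => bf (z⁻¹ • v) p = 1) := by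
      ext p
      simp only [Finset.mem_filter, bf_smul_left]
      constructor
      · rintro ⟨h1, h2⟩; exact ⟨h1, by rw [h2, inv_mul_cancel₀ hz]⟩
      · rintro ⟨h1, h2⟩
        refine ⟨h1, ?_⟩
        rw [inv_mul_eq_one₀ hz] at h2
        exact h2.symm
    rw [h1, card_arc_line hd A (smul_ne_zero (inv_ne_zero hz) hv)]
    exact Nat.mul_le_mul_left _ (hmax _)

theorem even_full {d : F} (hd : tr d = 1) {α : ι → F} (hα : LinearIndependent (ZMod 2) α)
    (A : Finset (ι → ZMod 2)) {w : ℕ} (hw : 1 ≤ w) :
    (Fintype.card F - 2 ^ Fintype.card ι) *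
      ((univ.filter fun φ : ι → ZMod 2 => wt A φ = w).card * Fintype.card F) ≤
    2 ^ Fintype.card ι * (fullLines (arc d (codeSet α A)) (2 * w)).card := by
  refine (even_count hα A w (d := d)).trans (Nat.mul_le_mul_left _ (Finset.card_le_card ?_))
  intro v hv
  rw [Finset.mem_filter] at hv
  unfold fullLines
  rw [Finset.mem_filter]
  have hv0 : v ≠ 0 := by
    rintro rfl
    have h1 := hv.2
    have h2 : (fun i => tr (α i * Qf d (0 : F × F))) = 0 := by
      funext i
      have : Qf d (0 : F × F) = 0 := by unfold Qf; simp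
      rw [this, mul_zero, tr_zero]; rfl
    rw [h2] at h1
    have h3 : wt A (0 : ι → ZMod 2) = 0 := by
      unfold wt
      rw [Finset.card_eq_zero, Finset.filter_eq_empty_iff]
      intro c _; simp
    omega
  refine ⟨Finset.mem_univ _, hv0, ?_⟩
  rw [card_arc_line hd _ hv0, card_codeSet_filter hα, hv.2]

end KTT
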