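import Pool.Agent.Work.KTT.AllT
import Pool.Agent.Work.KTT.Code2

/-!
# The lower bound for every `t`, with explicit constants
-/

set_option autoImplicit false

open Finset Filter Topology

namespace KTT

theorem kappa_pos {S : Finset ℕ} (hS : 1 ≤ ∑ i ∈ S, 2 ^ i) : 1 ≤ ∑ i ∈ S, (2 ^ (i + 1) - 1) := by
  have hne : S.Nonempty := by
    rw [Finset.nonempty_iff_ne_empty]
    rintro rfl
    simp at hS
  obtain ⟨i, hi⟩ := hne
  have h1 : 2 ^ (i + 1) - 1 ≤ ∑ i ∈ S, (2 ^ (i + 1) - 1) :=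
    Finset.single_le_sum (f := fun i => 2 ^ (i + 1) - 1) (fun _ _ => Nat.zero_le _) hi
  have h2 : 1 < 2 ^ (i + 1) := Nat.one_lt_two_pow (by omega)
  omega

theorem kappa_le (S : Finset ℕ) : ∑ i ∈ S, (2 ^ (i + 1) - 1) ≤ 2 * ∑ i ∈ S, 2 ^ i := by
  rw [Finset.mul_sum]
  refine Finset.sum_le_sum fun i _ => ?_
  rw [pow_succ]
  omega

theorem even_exact {S : Finset ℕ} (hS : 1 ≤ ∑ i ∈ S, 2 ^ i) {c : ℝ}
    (hc : c < 3 / 32 * ((∏ i ∈ S, (1 - 1 / 2 ^ (i + 1) : ℝ)) /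
      ((∑ i ∈ S, (2 ^ (i + 1) - 1) : ℕ) : ℝ)) ^ 2) :
    ∀ᶠ n : ℕ in atTop, c * (n : ℝ) ^ 2 ≤ N (2 * ∑ i ∈ S, 2 ^ i) n := by
  classical
  obtain ⟨ι, i1, i2, A, hA0, hA, hmax, hN⟩ := exists_code_exact S
  have hk := kappa_pos hS
  have hθ0 := theta_pos S
  have hkle := kappa_le S
  set w := ∑ i ∈ S, 2 ^ i with hw
  set κ := ∑ i ∈ S, (2 ^ (i + 1) - 1) with hκ
  set θ := ∏ i ∈ S, (1 - 1 / 2 ^ (i + 1) : ℝ) with hθ
  set N0 := (univ.filter fun φ : ι → ZMod 2 => wt A φ = w).card with hN0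
  have h1 : θ ≤ N0 / 2 ^ Fintype.card ι := by
    rw [le_div_iff₀ (by positivity)]
    exact hN
  have hk' : (0 : ℝ) < κ := by exact_mod_cast hk
  have hD : ∀ m, Fintype.card ι + 1 ≤ m → Dat (2 * w) A.card
      (N0 / 2 ^ Fintype.card ι) N0 m := fun m hm => dat_even A hA0 hS (by rw [hA]; exact hkle) hmax m hm
  rw [hA] at hD
  refine asym hk (θ := N0 / 2 ^ Fintype.card ι) (C := N0) (lt_of_lt_of_le hθ0 h1)
    (m0 := Fintype.card ι + 1) hD (lt_of_lt_of_le hc ?_)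
  have h2 : θ / κ ≤ N0 / 2 ^ Fintype.card ι / κ := by gcongr
  have h3 := pow_le_pow_left₀ (by positivity) h2 2
  linarith

theorem even_exact_seq {S : Finset ℕ} (hS : 1 ≤ ∑ i ∈ S, 2 ^ i) {c : ℝ}
    (hc : c < 1 / 2 * ((∏ i ∈ S, (1 - 1 / 2 ^ (i + 1) : ℝ)) /
      ((∑ i ∈ S, (2 ^ (i + 1) - 1) : ℕ) : ℝ)) ^ 2) :
    ∃ᶠ n : ℕ in atTop, c * (n : ℝ) ^ 2 ≤ N (2 * ∑ i ∈ S, 2 ^ i) n := by
  classical
  obtain ⟨ι, i1, i2, A, hA0, hA, hmax, hN⟩ := exists_code_exact S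
  have hk := kappa_pos hS
  have hθ0 := theta_pos S
  have hkle := kappa_le S
  set w := ∑ i ∈ S, 2 ^ i with hw
  set κ := ∑ i ∈ S, (2 ^ (i + 1) - 1) with hκ
  set θ := ∏ i ∈ S, (1 - 1 / 2 ^ (i + 1) : ℝ) with hθ
  set N0 := (univ.filter fun φ : ι → ZMod 2 => wt A φ = w).card with hN0
  have h1 : θ ≤ N0 / 2 ^ Fintype.card ι := by
    rw [le_div_iff₀ (by positivity)]
    exact hN
  have hk' : (0 : ℝ) < κ := by exact_mod_cast hk
  have hD : ∀ m, Fintype.card ι + 1 ≤ m → Dat (2 * w) A.card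
      (N0 / 2 ^ Fintype.card ι) N0 m := fun m hm => dat_even A hA0 hS (by rw [hA]; exact hkle) hmax m hm
  rw [hA] at hD
  have h5 := asym_seq hk (θ := N0 / 2 ^ Fintype.card ι) (C := N0) (lt_of_lt_of_le hθ0 h1)
    (m0 := Fintype.card ι + 1) hD (c := c) (lt_of_lt_of_le hc (by
      have h2 : θ / κ ≤ N0 / 2 ^ Fintype.card ι / κ := by gcongr
      have h3 := pow_le_pow_left₀ (by positivity) h2 2
      linarith))
  have htend : Tendsto (fun m : ℕ => κ * (2 ^ m + 1) * 2 ^ m) atTop atTop := by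
    refine tendsto_atTop_mono (fun m => ?_) tendsto_id
    calc id m ≤ 2 ^ m := Nat.lt_two_pow_self.le
      _ = 1 * 1 * 2 ^ m := by ring
      _ ≤ κ * (2 ^ m + 1) * 2 ^ m := Nat.mul_le_mul_right _ (Nat.mul_le_mul hk (Nat.le_add_left 1 (2 ^ m)))
  exact htend.frequently h5.frequently

theorem odd_exact (S : Finset ℕ) {c : ℝ}
    (hc : c < 1 / 384 * ((∏ i ∈ S, (1 - 1 / 2 ^ (i + 1) : ℝ)) /
      ((∑ i ∈ S, (2 ^ (i + 1) - 1) : ℕ) + 1 : ℝ)) ^ 2) :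
    ∀ᶠ n : ℕ in atTop, c * (n : ℝ) ^ 2 ≤ N (2 * (∑ i ∈ S, 2 ^ i) + 3) n := by
  classical
  obtain ⟨ι, i1, i2, A, hA0, hA, hmax, hN⟩ := exists_code_exact S
  have hθ0 := theta_pos S
  have hkle := kappa_le S
  set w := ∑ i ∈ S, 2 ^ i with hw
  set κ := ∑ i ∈ S, (2 ^ (i + 1) - 1) with hκ
  set θ := ∏ i ∈ S, (1 - 1 / 2 ^ (i + 1) : ℝ) with hθ
  set N0 := (univ.filter fun φ : ι → ZMod 2 => wt A φ = w).card with hN0
  have h1 : θ / 6 ≤ N0 / (6 * 2 ^ Fintype.card ι) := by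
    rw [div_le_div_iff₀ (by norm_num) (by positivity)]
    linarith
  have hN2 : 0 < N0 := by
    have : (0 : ℝ) < N0 := lt_of_lt_of_le (by positivity) hN
    exact_mod_cast this
  obtain ⟨C, m0, hD⟩ := dat_odd A hA0 (by rw [hA]; exact hkle) hmax hN2
  rw [hA] at hD
  refine asym (by omega : 1 ≤ κ + 1) (θ := N0 / (6 * 2 ^ Fintype.card ι)) (C := C)
    (lt_of_lt_of_le (by positivity) h1) (m0 := m0) hD (lt_of_lt_of_le hc ?_)
  have h2 : (θ / 6) / (κ + 1 : ℝ) ≤ N0 / (6 * 2 ^ Fintype.card ι) / ((κ + 1 : ℕ) : ℝ) := by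
    push_cast
    gcongr
  have h3 := pow_le_pow_left₀ (by positivity) h2 2
  calc 1 / 384 * (θ / (κ + 1 : ℝ)) ^ 2 = 3 / 32 * (θ / 6 / (κ + 1 : ℝ)) ^ 2 := by
        rw [div_div, mul_comm (6 : ℝ), ← div_div, div_pow (θ / (κ + 1 : ℝ))]
        ring
    _ ≤ _ := by linarith

theorem odd_exact_seq (S : Finset ℕ) {c : ℝ}
    (hc : c < 1 / 2 * ((∏ i ∈ S, (1 - 1 / 2 ^ (i + 1) : ℝ)) /
      (6 * ((∑ i ∈ S, (2 ^ (i + 1) - 1) : ℕ) + 1 : ℝ))) ^ 2) :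
    ∃ᶠ n : ℕ in atTop, c * (n : ℝ) ^ 2 ≤ N (2 * (∑ i ∈ S, 2 ^ i) + 3) n := by
  classical
  obtain ⟨ι, i1, i2, A, hA0, hA, hmax, hN⟩ := exists_code_exact S
  have hθ0 := theta_pos S
  have hkle := kappa_le S
  set w := ∑ i ∈ S, 2 ^ i with hw
  set κ := ∑ i ∈ S, (2 ^ (i + 1) - 1) with hκ
  set θ := ∏ i ∈ S, (1 - 1 / 2 ^ (i + 1) : ℝ) with hθ
  set N0 := (univ.filter fun φ : ι → ZMod 2 => wt A φ = w).card with hN0
  have h1 : θ / 6 ≤ N0 / (6 * 2 ^ Fintype.card ι) := by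
    rw [div_le_div_iff₀ (by norm_num) (by positivity)]
    linarith
  have hN2 : 0 < N0 := by
    have : (0 : ℝ) < N0 := lt_of_lt_of_le (by positivity) hN
    exact_mod_cast this
  obtain ⟨C, m0, hD⟩ := dat_odd A hA0 (by rw [hA]; exact hkle) hmax hN2
  rw [hA] at hD
  have h5 := asym_seq (by omega : 1 ≤ κ + 1) (θ := N0 / (6 * 2 ^ Fintype.card ι)) (C := C)
    (lt_of_lt_of_le (by positivity) h1) (m0 := m0) hD (c := c) (lt_of_lt_of_le hc (by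
      have h2 : (θ / 6) / (κ + 1 : ℝ) ≤ N0 / (6 * 2 ^ Fintype.card ι) / ((κ + 1 : ℕ) : ℝ) := by
        push_cast
        gcongr
      have h3 := pow_le_pow_left₀ (by positivity) h2 2
      rw [div_div] at h3
      linarith))
  have htend : Tendsto (fun m : ℕ => (κ + 1) * (2 ^ m + 1) * 2 ^ m) atTop atTop := by
    refine tendsto_atTop_mono (fun m => ?_) tendsto_id
    calc id m ≤ 2 ^ m := Nat.lt_two_pow_self.le
      _ = 1 * 1 * 2 ^ m := by ring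
      _ ≤ (κ + 1) * (2 ^ m + 1) * 2 ^ m := Nat.mul_le_mul_right _
        (Nat.mul_le_mul (Nat.le_add_left 1 κ) (Nat.le_add_left 1 (2 ^ m)))
  exact htend.frequently h5.frequently

theorem kappa_eq (S : Finset ℕ) :
    ((∑ i ∈ S, (2 ^ (i + 1) - 1) : ℕ) : ℝ) = 2 * ((∑ i ∈ S, 2 ^ i : ℕ) : ℝ) - S.card := by
  push_cast
  rw [Finset.mul_sum, Finset.cast_card, ← Finset.sum_sub_distrib]
  refine Finset.sum_congr rfl fun i _ => ?_
  rw [Nat.cast_sub Nat.one_le_two_pow, pow_succ]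
  push_cast
  ring

end KTT
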