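import Pool.Agent.Work.KTT.Count

/-!
# The odd case: conics and a cuspidal cubic
-/

set_option autoImplicit false

open Finset

namespace KTT

variable {F : Type*} [Field F] [Fintype F] [DecidableEq F] [Algebra (ZMod 2) F]
variable {ι : Type*} [Fintype ι] [DecidableEq ι]

/-- the cuspidal cubic without its cusp -/
def cubic (F : Type*) [Field F] [Fintype F] [DecidableEq F] : Finset (F × F) :=
  (univ.erase (0 : F)).image fun s => (s ^ 2, s ^ 3)

omit [Algebra (ZMod 2) F] in
theorem card_cubic_le : (cubic F).card ≤ Fintype.card F := by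
  unfold cubic
  exact Finset.card_image_le.trans (Finset.card_erase_le.trans (by rw [Finset.card_univ]))

omit [Algebra (ZMod 2) F] in
theorem cubic_line_le {v : F × F} (hv : v ≠ 0) (z : F) :
    ((cubic F).filter fun p => bf v p = z).card ≤ 3 := by
  let p : Polynomial F := Polynomial.C v.1 * Polynomial.X ^ 3 + Polynomial.C v.2 * Polynomial.X ^ 2 +
    Polynomial.C (-z)
  have hp : p ≠ 0 := by
    intro h
    apply hv
    refine Prod.ext ?_ ?_
    · have := congrArg (fun q => Polynomial.coeff q 3) h
      simpa [p, Polynomial.coeff_X_pow, Polynomial.coeff_C] using this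
    · have := congrArg (fun q => Polynomial.coeff q 2) h
      simpa [p, Polynomial.coeff_X_pow, Polynomial.coeff_C] using this
  have hdeg : p.natDegree ≤ 3 := by
    simp only [p]
    compute_degree
  refine le_trans ?_ ((card_roots_le hp).trans hdeg)
  have h1 : ((cubic F).filter fun q => bf v q = z) ⊆
      (univ.filter fun y : F => p.eval y = 0).image fun s => (s ^ 2, s ^ 3) := by
    intro q hq
    unfold cubic at hq
    rw [Finset.mem_filter, Finset.mem_image] at hq
    obtain ⟨⟨s, hs, rfl⟩, hq⟩ := hq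
    rw [Finset.mem_image]
    refine ⟨s, ?_, rfl⟩
    rw [Finset.mem_filter]
    refine ⟨Finset.mem_univ _, ?_⟩
    unfold bf at hq
    simp only at hq
    simp only [p, Polynomial.eval_add, Polynomial.eval_mul, Polynomial.eval_C, Polynomial.eval_pow,
      Polynomial.eval_X]
    rw [← hq]
    ring
  exact (Finset.card_le_card h1).trans Finset.card_image_le

/-- the linear system of the line through the points with parameters `x⁻¹`, `y⁻¹`, `(x+y)⁻¹` -/
def sec (x y : F) : F × F := (x * y * (x + y), x ^ 2 + x * y + y ^ 2)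

omit [Fintype F] [DecidableEq F] in
theorem sec_root (x y : F) :
    x ^ 3 + (sec x y).2 * x + (sec x y).1 = 0 ∧ y ^ 3 + (sec x y).2 * y + (sec x y).1 = 0 ∧
    (x + y) ^ 3 + (sec x y).2 * (x + y) + (sec x y).1 = 0 := by
  have := charP2 (F := F)
  have h2 : (2 : F) = 0 := CharTwo.two_eq_zero
  unfold sec
  simp only
  refine ⟨?_, ?_, ?_⟩
  · linear_combination (x ^ 3 + x ^ 2 * y + x * y ^ 2) * h2
  · linear_combination (y ^ 3 + x * y ^ 2 + x ^ 2 * y) * h2
  · linear_combination (x ^ 3 + 3 * x ^ 2 * y + 3 * x * y ^ 2 + y ^ 3) * h2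

omit [Fintype F] [DecidableEq F] in
theorem sec_line {x y τ : F} (hτ : τ ≠ 0) (h : τ ^ 3 + (sec x y).2 * τ + (sec x y).1 = 0) :
    bf (sec x y) ((τ⁻¹) ^ 2, (τ⁻¹) ^ 3) = 1 := by
  have := charP2 (F := F)
  unfold bf
  simp only
  have h1 : τ ^ 3 = (sec x y).2 * τ + (sec x y).1 := by
    apply eq_of_add_eq_zero'
    rw [← add_assoc]; exact h
  have h2 : (sec x y).1 * τ⁻¹ ^ 3 + τ⁻¹ ^ 2 * (sec x y).2 =
      ((sec x y).2 * τ + (sec x y).1) * τ⁻¹ ^ 3 := by
    field_simp
    ring
  rw [h2, ← h1, ← mul_pow, mul_inv_cancel₀ hτ, one_pow]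

/-- the bad parameters: points of the cubic that lie on the arc -/
def badTau (d : F) (A : Finset F) : Finset F :=
  univ.filter fun τ => τ ≠ 0 ∧ Qf d ((τ⁻¹) ^ 2, (τ⁻¹) ^ 3) ∈ A

omit [Algebra (ZMod 2) F] in
theorem card_badTau (d : F) {A : Finset F} (hA : (0 : F) ∉ A) : (badTau d A).card ≤ A.card * 6 := by
  let p : F → Polynomial F := fun a => Polynomial.C a * Polynomial.X ^ 6 +
    (- Polynomial.X ^ 2 - Polynomial.X - Polynomial.C d)
  have h1 : badTau d A ⊆ A.biUnion fun a => univ.filter fun y : F => (p a).eval y = 0 := by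
    intro τ hτ
    unfold badTau at hτ
    rw [Finset.mem_filter] at hτ
    obtain ⟨-, h0, h1⟩ := hτ
    rw [Finset.mem_biUnion]
    refine ⟨_, h1, ?_⟩
    rw [Finset.mem_filter]
    refine ⟨Finset.mem_univ _, ?_⟩
    simp only [p, Polynomial.eval_add, Polynomial.eval_mul, Polynomial.eval_C, Polynomial.eval_pow,
      Polynomial.eval_X, Polynomial.eval_sub, Polynomial.eval_neg]
    unfold Qf
    simp only
    field_simp
    ring
  refine (Finset.card_le_card h1).trans (Finset.card_biUnion_le_card_mul _ _ 6 ?_)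
  intro a ha
  have ha0 : a ≠ 0 := fun h => hA (h ▸ ha)
  have hp : p a ≠ 0 := by
    intro h
    have := congrArg (fun q => Polynomial.coeff q 6) h
    simp only [p, Polynomial.coeff_add, Polynomial.coeff_C_mul, Polynomial.coeff_X_pow,
      Polynomial.coeff_sub, Polynomial.coeff_neg, Polynomial.coeff_X, Polynomial.coeff_C,
      Polynomial.coeff_zero] at this
    norm_num at this
    exact ha0 this
  have hdeg : (p a).natDegree ≤ 6 := by
    simp only [p]
    compute_degree
  exact (card_roots_le hp).trans hdeg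

theorem odd_pattern {d : F} {α : ι → F} (hα : LinearIndependent (ZMod 2) α)
    (P : Finset (ι → ZMod 2)) :
    ∃ bad : Finset F, bad.card ≤ 2 ^ Fintype.card ι * 16 ∧ ∀ y ∉ bad,
      2 ^ Fintype.card ι *
        (univ.filter fun x : F => (fun i => tr (α i * Qf d (sec x y))) ∈ P).card =
      P.card * Fintype.card F := by
  have := charP2 (F := F)
  let p : F → Polynomial F := fun a => Polynomial.C (a ^ 4) * Polynomial.X ^ 16 +
    (Polynomial.C (a ^ 2) * Polynomial.X ^ 8 + Polynomial.C (a ^ 2 * d ^ 2) * Polynomial.X ^ 4 +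
      Polynomial.C a * Polynomial.X ^ 2 + Polynomial.C a * Polynomial.X + Polynomial.C (a * d))
  let bad : Finset F := (univ.erase (0 : ι → ZMod 2)).biUnion fun c =>
    univ.filter fun y : F => (p (emb α c)).eval y = 0
  refine ⟨bad, ?_, ?_⟩
  · refine (Finset.card_biUnion_le_card_mul _ _ 16 ?_).trans ?_
    · intro c hc
      rw [Finset.mem_erase] at hc
      have hc0 := emb_ne_zero hα hc.1
      have hp : p (emb α c) ≠ 0 := by
        intro h
        have := congrArg (fun q => Polynomial.coeff q 16) h
        simp only [p, Polynomial.coeff_add, Polynomial.coeff_C_mul, Polynomial.coeff_X_pow,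
          Polynomial.coeff_X, Polynomial.coeff_C,
          Polynomial.coeff_zero] at this
        norm_num at this
        exact hc0 this
      have hdeg : (p (emb α c)).natDegree ≤ 16 := by
        simp only [p]
        compute_degree
      exact (card_roots_le hp).trans hdeg
    · apply Nat.mul_le_mul_right
      refine (Finset.card_erase_le).trans ?_
      rw [Finset.card_univ, Fintype.card_fun, ZMod.card]
  · intro y hy
    have hβ : LinearIndependent (ZMod 2) fun i => (p (α i)).eval y := by
      rw [Fintype.linearIndependent_iff]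
      intro c hc
      by_contra hne
      push Not at hne
      obtain ⟨i, hi⟩ := hne
      have hc0 : c ≠ 0 := fun h => hi (by rw [h]; rfl)
      apply hy
      rw [Finset.mem_biUnion]
      refine ⟨c, by simp [hc0], ?_⟩
      rw [Finset.mem_filter]
      refine ⟨Finset.mem_univ _, ?_⟩
      rw [← hc]
      simp only [p, Polynomial.eval_add, Polynomial.eval_mul, Polynomial.eval_C,
        Polynomial.eval_pow, Polynomial.eval_X]
      have e2 : emb α c ^ 2 = ∑ i, c i • α i ^ 2 := (emb_sq α c).symm
      have e4 : emb α c ^ 4 = ∑ i, c i • α i ^ 4 := by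
        have : emb α c ^ 4 = (emb α c ^ 2) ^ 2 := by ring
        rw [this, ← emb_sq, ← emb_sq]
        unfold emb
        refine Finset.sum_congr rfl fun i _ => ?_
        change c i • (α i ^ 2) ^ 2 = c i • α i ^ 4
        rw [← pow_mul]
      have e1 : emb α c = ∑ i, c i • α i := rfl
      rw [e2, e4, e1]
      simp only [smul_add, Finset.sum_add_distrib, ← smul_mul_assoc, ← Finset.sum_mul, mul_assoc]
    have h1 := card_pattern_pow hβ (fun i => tr (α i * (d * y ^ 4))) P 2
    rw [← h1]
    congr 2
    ext x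
    simp only [Finset.mem_filter, Finset.mem_univ, true_and]
    have h2 : (fun i => tr (α i * Qf d (sec x y))) =
        (fun i => tr (x ^ 2 ^ 2 * (p (α i)).eval y)) + fun i => tr (α i * (d * y ^ 4)) := by
      funext i
      rw [Pi.add_apply]
      simp only [p, Polynomial.eval_add, Polynomial.eval_mul, Polynomial.eval_C,
        Polynomial.eval_pow, Polynomial.eval_X]
      have h2 : (2 : F) = 0 := CharTwo.two_eq_zero
      have h3 : α i * Qf d (sec x y) = α i * x ^ 4 * y ^ 2 + α i * x ^ 2 * y ^ 4 + α i * x ^ 4 * y +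
          α i * x * y ^ 4 + α i * d * x ^ 4 + α i * d * x ^ 2 * y ^ 2 + α i * (d * y ^ 4) := by
        unfold Qf sec
        simp only
        linear_combination (α i * (x ^ 3 * y ^ 3 + x ^ 3 * y ^ 2 + x ^ 2 * y ^ 3 +
          d * (x ^ 3 * y + x ^ 2 * y ^ 2 + x * y ^ 3))) * h2
      have h4 : x ^ 2 ^ 2 * (α i ^ 4 * y ^ 16 + (α i ^ 2 * y ^ 8 + α i ^ 2 * d ^ 2 * y ^ 4 +
          α i * y ^ 2 + α i * y + α i * d)) =
          ((α i * x * y ^ 4) ^ 2) ^ 2 + ((α i * x ^ 2 * y ^ 4) ^ 2 + (α i * d * x ^ 2 * y ^ 2) ^ 2 +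
          α i * x ^ 4 * y ^ 2 + α i * x ^ 4 * y + α i * d * x ^ 4) := by ring
      rw [h3, h4]
      simp only [tr_add, tr_sq]
      ring
    rw [h2]

theorem odd_line_le {d : F} (hd : tr d = 1) {A : Finset F} {w : ℕ}
    (hA : A.card ≤ 2 * w) (hmax : ∀ g : F, (A.filter fun a => tr (a * g) = 1).card ≤ w)
    {v : F × F} (hv : v ≠ 0) (z : F) :
    ((arc d A ∪ cubic F).filter fun p => bf v p = z).card ≤ 2 * w + 3 := by
  rw [Finset.filter_union]
  exact (Finset.card_union_le _ _).trans
    (Nat.add_le_add (arc_line_le hd hA hmax hv z) (cubic_line_le hv z))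

/-- the good pairs of parameters -/
def goodPairs (d : F) (A : Finset F) (Pd : F × F → Prop) [DecidablePred Pd] (bad : Finset F) :
    Finset (F × F) :=
  univ.filter fun q => q.2 ∉ bad ∧ q.2 ≠ 0 ∧ q.2 ∉ badTau d A ∧ q.1 ≠ 0 ∧ q.1 ≠ q.2 ∧
    q.1 ∉ badTau d A ∧ q.1 + q.2 ∉ badTau d A ∧ Pd q

theorem good_full {d : F} (hd : tr d = 1) {A : Finset F} {w : ℕ}
    (hA : A.card ≤ 2 * w) (hmax : ∀ g : F, (A.filter fun a => tr (a * g) = 1).card ≤ w)
    {x y : F} (hx : x ≠ 0) (hy : y ≠ 0) (hxy : x ≠ y) (h1 : x ∉ badTau d A) (h2 : y ∉ badTau d A)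
    (h3 : x + y ∉ badTau d A) (h4 : (A.filter fun a => tr (a * Qf d (sec x y)) = 1).card = w) :
    sec x y ∈ fullLines (arc d A ∪ cubic F) (2 * w + 3) := by
  have := charP2 (F := F)
  have hxy0 : x + y ≠ 0 := fun h => hxy (eq_of_add_eq_zero' h)
  have hs0 : sec x y ≠ 0 := by
    intro h
    have := congrArg Prod.fst h
    unfold sec at this
    simp only [Prod.fst_zero] at this
    exact mul_ne_zero (mul_ne_zero hx hy) hxy0 this
  unfold fullLines
  rw [Finset.mem_filter]
  refine ⟨Finset.mem_univ _, hs0, ?_⟩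
  apply le_antisymm (odd_line_le hd hA hmax hs0 1)
  let f : F → F × F := fun τ => ((τ⁻¹) ^ 2, (τ⁻¹) ^ 3)
  have hf : ∀ τ τ' : F, τ ≠ 0 → τ' ≠ 0 → f τ = f τ' → τ = τ' := by
    intro τ τ' h h' he
    have e1 := congrArg Prod.fst he
    simp only [f] at e1
    have e2 : (τ⁻¹ + τ'⁻¹) ^ 2 = 0 := by
      rw [CharTwo.add_sq, e1, CharTwo.add_self_eq_zero]
    exact inv_injective (eq_of_add_eq_zero' (pow_eq_zero_iff (two_ne_zero) |>.1 e2))
  have hdis : Disjoint ((arc d A).filter fun p => bf (sec x y) p = 1)
      (({x, y, x + y} : Finset F).image f) := by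
    rw [Finset.disjoint_left]
    intro p hp hp'
    rw [Finset.mem_filter] at hp
    rw [Finset.mem_image] at hp'
    obtain ⟨τ, hτ, rfl⟩ := hp'
    have hA' : Qf d (f τ) ∈ A := by
      have := hp.1
      unfold arc at this
      rw [Finset.mem_filter] at this
      exact this.2
    have hb : ∀ σ : F, σ ≠ 0 → σ ∉ badTau d A → Qf d (f σ) ∉ A := by
      intro σ h h' h''
      apply h'
      unfold badTau
      rw [Finset.mem_filter]
      exact ⟨Finset.mem_univ _, h, h''⟩
    simp only [Finset.mem_insert, Finset.mem_singleton] at hτ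
    rcases hτ with rfl | rfl | rfl
    · exact hb _ hx h1 hA'
    · exact hb _ hy h2 hA'
    · exact hb _ hxy0 h3 hA'
  have hsub : ((arc d A).filter fun p => bf (sec x y) p = 1) ∪
      (({x, y, x + y} : Finset F).image f) ⊆
      (arc d A ∪ cubic F).filter fun p => bf (sec x y) p = 1 := by
    intro p hp
    rw [Finset.mem_union] at hp
    rw [Finset.mem_filter, Finset.mem_union]
    rcases hp with hp | hp
    · rw [Finset.mem_filter] at hp
      exact ⟨Or.inl hp.1, hp.2⟩
    · rw [Finset.mem_image] at hp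
      obtain ⟨τ, hτ, rfl⟩ := hp
      obtain ⟨r1, r2, r3⟩ := sec_root x y
      have hc : ∀ σ : F, σ ≠ 0 → f σ ∈ cubic F := by
        intro σ h
        unfold cubic
        rw [Finset.mem_image]
        exact ⟨σ⁻¹, by simp [h], rfl⟩
      simp only [Finset.mem_insert, Finset.mem_singleton] at hτ
      rcases hτ with rfl | rfl | rfl
      · exact ⟨Or.inr (hc _ hx), sec_line hx r1⟩
      · exact ⟨Or.inr (hc _ hy), sec_line hy r2⟩
      · exact ⟨Or.inr (hc _ hxy0), sec_line hxy0 r3⟩
  have hcard := Finset.card_le_card hsub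
  rw [Finset.card_union_of_disjoint hdis, card_arc_line hd A hs0, h4] at hcard
  have h3c : (({x, y, x + y} : Finset F).image f).card = 3 := by
    rw [Finset.card_image_of_injOn]
    · rw [Finset.card_insert_of_notMem, Finset.card_pair]
      · intro h; exact hx (by rwa [right_eq_add] at h)
      · simp only [Finset.mem_insert, Finset.mem_singleton, not_or]
        refine ⟨hxy, ?_⟩
        intro h
        exact hy (by rwa [left_eq_add] at h)
    · intro τ hτ τ' hτ' h
      have hne : ∀ σ ∈ ({x, y, x + y} : Finset F), σ ≠ 0 := by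
        intro σ hσ
        simp only [Finset.mem_insert, Finset.mem_singleton] at hσ
        rcases hσ with rfl | rfl | rfl
        · exact hx
        · exact hy
        · exact hxy0
      exact hf τ τ' (hne _ (Finset.mem_coe.1 hτ)) (hne _ (Finset.mem_coe.1 hτ')) h
  rw [h3c] at hcard
  exact hcard

/-- a line comes from at most six pairs of parameters -/
theorem card_good_le {d : F} (hd : tr d = 1) {A : Finset F} {w : ℕ}
    (hA : A.card ≤ 2 * w) (hmax : ∀ g : F, (A.filter fun a => tr (a * g) = 1).card ≤ w)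
    (bad : Finset F) :
    (goodPairs d A (fun q => (A.filter fun a => tr (a * Qf d (sec q.1 q.2)) = 1).card = w) bad).card
      ≤ 6 * (fullLines (arc d A ∪ cubic F) (2 * w + 3)).card := by
  refine Finset.card_le_mul_card_image_of_maps_to (f := fun q => sec q.1 q.2) ?_ 6 ?_
  · rintro ⟨x, y⟩ hq
    unfold goodPairs at hq
    rw [Finset.mem_filter] at hq
    obtain ⟨-, -, hy, h2, hx, hxy, h1, h3, h4⟩ := hq
    exact good_full hd hA hmax hx hy hxy h1 h2 h3 h4
  · intro v _
    let R : Finset F := univ.filter fun τ : F => τ ^ 3 + v.2 * τ + v.1 = 0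
    have hR : R.card ≤ 3 := by
      let p : Polynomial F := Polynomial.X ^ 3 + Polynomial.C v.2 * Polynomial.X + Polynomial.C v.1
      have hp : p ≠ 0 := by
        intro h
        have := congrArg (fun q => Polynomial.coeff q 3) h
        simp [p, Polynomial.coeff_X_pow] at this
      have hdeg : p.natDegree ≤ 3 := by
        simp only [p]
        compute_degree
      refine le_trans (Finset.card_le_card ?_) ((card_roots_le hp).trans hdeg)
      intro τ hτ
      simp only [R, Finset.mem_filter, Finset.mem_univ, true_and] at hτ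
      simp [p, hτ]
    have hsub : ((goodPairs d A
        (fun q => (A.filter fun a => tr (a * Qf d (sec q.1 q.2)) = 1).card = w) bad).filter
          fun q => sec q.1 q.2 = v) ⊆ R.offDiag := by
      rintro ⟨x, y⟩ hq
      rw [Finset.mem_filter] at hq
      obtain ⟨hq, hv⟩ := hq
      unfold goodPairs at hq
      rw [Finset.mem_filter] at hq
      obtain ⟨-, -, hy, h2, hx, hxy, h1, h3, h4⟩ := hq
      simp only at hv hxy
      obtain ⟨r1, r2, -⟩ := sec_root x y
      rw [hv] at r1 r2
      rw [Finset.mem_offDiag]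
      simp only [R, Finset.mem_filter, Finset.mem_univ, true_and]
      exact ⟨r1, r2, hxy⟩
    refine (Finset.card_le_card hsub).trans ?_
    rw [Finset.offDiag_card]
    have : R.card = 0 ∨ R.card = 1 ∨ R.card = 2 ∨ R.card = 3 := by omega
    rcases this with h | h | h | h <;> rw [h] <;> norm_num

theorem odd_full {d : F} (hd : tr d = 1) {α : ι → F} (hα : LinearIndependent (ZMod 2) α)
    (A : Finset (ι → ZMod 2)) (hA0 : (0 : ι → ZMod 2) ∉ A) {w : ℕ} (hA : A.card ≤ 2 * w)
    (hmax : ∀ φ, wt A φ ≤ w) :
    (Fintype.card F - (2 ^ Fintype.card ι * 16 + 6 * A.card + 1)) *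
      ((univ.filter fun φ : ι → ZMod 2 => wt A φ = w).card * Fintype.card F -
        2 ^ Fintype.card ι * (2 + 12 * A.card)) ≤
    2 ^ Fintype.card ι * (6 * (fullLines (arc d (codeSet α A) ∪ cubic F) (2 * w + 3)).card) := by
  have := charP2 (F := F)
  have hcA := card_codeSet hα A
  have h0A := zero_notMem_codeSet hα hA0
  have hmaxF : ∀ g : F, ((codeSet α A).filter fun a => tr (a * g) = 1).card ≤ w := by
    intro g
    rw [card_codeSet_filter hα]
    exact hmax _
  set P := (univ.filter fun φ : ι → ZMod 2 => wt A φ = w) with hP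
  set D := badTau d (codeSet α A) with hD
  have hDc : D.card ≤ 6 * A.card := by
    have h := card_badTau d h0A
    rw [hD, ← hcA]
    exact h.trans (le_of_eq (mul_comm _ _))
  obtain ⟨bad, hbad, hpat⟩ := odd_pattern (d := d) hα P
  refine le_trans ?_ (Nat.mul_le_mul_left _
    (card_good_le hd (by rw [hcA]; exact hA) hmaxF bad))
  -- good pairs, fibred over the second coordinate
  set Gd := goodPairs d (codeSet α A)
    (fun q => ((codeSet α A).filter fun a => tr (a * Qf d (sec q.1 q.2)) = 1).card = w) bad with hG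
  have hfib : ∀ y ∈ (bad ∪ D ∪ {0})ᶜ, P.card * Fintype.card F -
      2 ^ Fintype.card ι * (2 + 12 * A.card) ≤
      2 ^ Fintype.card ι * (Gd.filter fun q => q.2 = y).card := by
    intro y hy
    simp only [Finset.mem_compl, Finset.mem_union, Finset.mem_singleton, not_or] at hy
    obtain ⟨⟨hy1, hy2⟩, hy3⟩ := hy
    rw [← hpat y hy1, ← Nat.mul_sub]
    apply Nat.mul_le_mul_left
    rw [Nat.sub_le_iff_le_add]
    have hsub : (univ.filter fun x : F => (fun i => tr (α i * Qf d (sec x y))) ∈ P) ⊆
        ((Gd.filter fun q => q.2 = y).image Prod.fst) ∪ (({0, y} : Finset F) ∪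
          (D ∪ D.image fun x => x + y)) := by
      intro x hx
      rw [Finset.mem_filter] at hx
      by_cases h : x ∈ (({0, y} : Finset F) ∪ (D ∪ D.image fun x => x + y))
      · exact Finset.mem_union_right _ h
      · apply Finset.mem_union_left
        simp only [Finset.mem_union, Finset.mem_insert, Finset.mem_singleton, not_or] at h
        obtain ⟨⟨h1, h2⟩, h3, h4⟩ := h
        rw [Finset.mem_image]
        refine ⟨(x, y), ?_, rfl⟩
        rw [Finset.mem_filter]
        refine ⟨?_, rfl⟩
        rw [hG]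
        unfold goodPairs
        rw [Finset.mem_filter]
        refine ⟨Finset.mem_univ _, hy1, hy3, hy2, h1, h2, h3, ?_, ?_⟩
        · intro h5
          apply h4
          rw [Finset.mem_image]
          refine ⟨x + y, h5, ?_⟩
          rw [add_assoc, CharTwo.add_self_eq_zero, add_zero]
        · simp only
          rw [card_codeSet_filter hα]
          have := hx.2
          rw [hP, Finset.mem_filter] at this
          exact this.2
    refine (Finset.card_le_card hsub).trans ((Finset.card_union_le _ _).trans ?_)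
    refine Nat.add_le_add Finset.card_image_le ?_
    refine (Finset.card_union_le _ _).trans ?_
    have h5 : ({0, y} : Finset F).card ≤ 2 := Finset.card_le_two
    have h6 : (D ∪ D.image fun x => x + y).card ≤ D.card + D.card :=
      (Finset.card_union_le _ _).trans (Nat.add_le_add_left Finset.card_image_le _)
    omega
  have hGc : Gd.card = ∑ y : F, (Gd.filter fun q => q.2 = y).card :=
    Finset.card_eq_sum_card_fiberwise (fun _ _ => Finset.mem_coe.2 (Finset.mem_univ _))
  rw [hGc, Finset.mul_sum]
  calc (Fintype.card F - (2 ^ Fintype.card ι * 16 + 6 * A.card + 1)) *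
      (P.card * Fintype.card F - 2 ^ Fintype.card ι * (2 + 12 * A.card))
      ≤ ((bad ∪ D ∪ {0})ᶜ).card *
        (P.card * Fintype.card F - 2 ^ Fintype.card ι * (2 + 12 * A.card)) := by
        apply Nat.mul_le_mul_right
        rw [Finset.card_compl]
        have h7 : (bad ∪ D ∪ {0}).card ≤ bad.card + D.card + 1 := by
          refine (Finset.card_union_le _ _).trans ?_
          exact Nat.add_le_add (Finset.card_union_le _ _) (by simp)
        omega
    _ = ∑ y ∈ (bad ∪ D ∪ {0})ᶜ,
        (P.card * Fintype.card F - 2 ^ Fintype.card ι * (2 + 12 * A.card)) := by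
        rw [Finset.sum_const, smul_eq_mul]
    _ ≤ ∑ y ∈ (bad ∪ D ∪ {0})ᶜ, 2 ^ Fintype.card ι * (Gd.filter fun q => q.2 = y).card :=
        Finset.sum_le_sum hfib
    _ ≤ _ := Finset.sum_le_sum_of_subset_of_nonneg (Finset.subset_univ _)
        (fun _ _ _ => Nat.zero_le _)

end KTT
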