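import Pool.Agent.Work.KTT.Cone

/-!
# Absolute trace in characteristic two, quadratic equations, conics
-/

set_option autoImplicit false

open Finset

namespace KTT

variable {F : Type*} [Field F] [Fintype F] [DecidableEq F] [Algebra (ZMod 2) F]

/-- absolute trace -/
noncomputable def tr (x : F) : ZMod 2 := Algebra.trace (ZMod 2) F x

omit [Fintype F] [DecidableEq F] in
theorem tr_add (x y : F) : tr (x + y) = tr x + tr y := by
  unfold tr; exact map_add _ _ _

omit [Fintype F] [DecidableEq F] in
theorem tr_zero : tr (0 : F) = 0 := by
  unfold tr; exact map_zero _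

omit [Fintype F] [DecidableEq F] in
theorem tr_smul (c : ZMod 2) (x : F) : tr (c • x) = c * tr x := by
  unfold tr; rw [map_smul, smul_eq_mul]

omit [Fintype F] [DecidableEq F] in
theorem tr_sum {ι : Type*} (s : Finset ι) (f : ι → F) : tr (∑ i ∈ s, f i) = ∑ i ∈ s, tr (f i) := by
  unfold tr; exact map_sum _ _ _

omit [DecidableEq F] in
theorem tr_sq (x : F) : tr (x ^ 2) = tr x := by
  unfold tr
  have h := Algebra.trace_eq_of_algEquiv
    (FiniteField.frobeniusAlgEquivOfAlgebraic (ZMod 2) F) x
  rw [FiniteField.coe_frobeniusAlgEquivOfAlgebraic] at h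
  simpa [ZMod.card] using h

omit [DecidableEq F] in
theorem tr_nondeg {x : F} (h : ∀ y : F, tr (y * x) = 0) : x = 0 := by
  have htr := (traceForm_nondegenerate (ZMod 2) F).1 x
  apply htr
  intro y
  rw [Algebra.traceForm_apply, mul_comm]
  exact h y

omit [DecidableEq F] in
theorem exists_tr_one : ∃ d : F, tr d = 1 := by
  by_contra hcon
  push Not at hcon
  have h0 : ∀ x : F, tr x = 0 := by
    intro x
    have h1 := hcon x
    have h2 : ∀ z : ZMod 2, z ≠ 1 → z = 0 := by decide
    exact h2 _ h1
  exact one_ne_zero (tr_nondeg (x := (1 : F)) fun y => h0 _)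

omit [Fintype F] [DecidableEq F] in
theorem charP2 : CharP F 2 := charP_of_injective_algebraMap (algebraMap (ZMod 2) F).injective 2

omit [DecidableEq F] in
/-- The fibres of `x ↦ (tr (x β_i))_i` for linearly independent `β`. -/
theorem card_pattern {ι : Type*} [Fintype ι] [DecidableEq ι] {β : ι → F}
    (hβ : LinearIndependent (ZMod 2) β) (b : ι → ZMod 2) (P : Finset (ι → ZMod 2)) :
    2 ^ Fintype.card ι * (univ.filter fun x : F => (fun i => tr (x * β i)) + b ∈ P).card =
      P.card * Fintype.card F := by
  let L : F →ₗ[ZMod 2] (ι → ZMod 2) :=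
    LinearMap.pi fun i => (Algebra.trace (ZMod 2) F).comp (LinearMap.mulRight (ZMod 2) (β i))
  have hL : ∀ x i, L x i = tr (x * β i) := by
    intro x i
    simp [L, tr]
  have hsurj : Function.Surjective L := by
    rw [← LinearMap.range_eq_top]
    by_contra hne
    obtain ⟨f, hf0, hf⟩ := Submodule.exists_le_ker_of_lt_top _ (lt_top_iff_ne_top.2 hne)
    have hfv : ∀ v : ι → ZMod 2, f v = ∑ i, v i * f (Pi.single i 1) := by
      intro v
      conv_lhs => rw [← Finset.univ_sum_single v]
      rw [map_sum]
      refine Finset.sum_congr rfl fun i _ => ?_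
      have : Pi.single i (v i) = v i • (Pi.single i 1 : ι → ZMod 2) := by
        rw [← Pi.single_smul, smul_eq_mul, mul_one]
      rw [this, map_smul, smul_eq_mul]
    have h1 : ∀ x : F, tr (x * ∑ i, f (Pi.single i 1) • β i) = 0 := by
      intro x
      have h2 : f (L x) = 0 := hf ⟨x, rfl⟩
      rw [hfv] at h2
      rw [Finset.mul_sum, tr_sum, ← h2]
      refine Finset.sum_congr rfl fun i _ => ?_
      rw [mul_smul_comm, tr_smul, hL, mul_comm]
    have h2 := tr_nondeg h1
    have h3 := (Fintype.linearIndependent_iff.1 hβ) (fun i => f (Pi.single i 1)) h2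
    apply hf0
    ext i
    simp [h3 i]
  have hfib : ∀ y z : ι → ZMod 2, (univ.filter fun x : F => L x = y).card =
      (univ.filter fun x : F => L x = z).card := fun y z =>
    AddMonoidHom.card_fiber_eq_of_mem_range L.toAddMonoidHom (hsurj y) (hsurj z)
  have htot : 2 ^ Fintype.card ι * (univ.filter fun x : F => L x = 0).card = Fintype.card F := by
    have h1 : (univ : Finset F).card = ∑ y : ι → ZMod 2, (univ.filter fun x : F => L x = y).card :=
      Finset.card_eq_sum_card_fiberwise (fun _ _ => Finset.mem_univ _)
    rw [Finset.sum_congr rfl (fun y _ => hfib y 0), Finset.sum_const, smul_eq_mul,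
      Finset.card_univ, Finset.card_univ, Fintype.card_fun, ZMod.card] at h1
    exact h1.symm
  have hP : (univ.filter fun x : F => (fun i => tr (x * β i)) + b ∈ P).card =
      P.card * (univ.filter fun x : F => L x = 0).card := by
    rw [Finset.card_eq_sum_card_fiberwise (f := fun x : F => L x + b) (t := P)]
    · rw [Finset.sum_congr rfl (g := fun _ => (univ.filter fun x : F => L x = 0).card), Finset.sum_const,
        smul_eq_mul]
      intro y hy
      rw [← hfib (y - b) 0]
      congr 1
      ext x
      simp only [Finset.mem_filter, Finset.mem_univ, true_and]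
      constructor
      · rintro ⟨_, h⟩
        rw [← h]; simp
      · intro h
        refine ⟨?_, by rw [h]; simp⟩
        have : (fun i => tr (x * β i)) + b = y := by
          have h4 : (fun i => tr (x * β i)) = L x := by
            funext i; rw [hL]
          rw [h4, h]; simp
        rw [this]; exact hy
    · intro x hx
      rw [Finset.mem_coe, Finset.mem_filter] at hx
      have h4 : (fun i => tr (x * β i)) = L x := by
        funext i; rw [hL]
      rw [h4] at hx
      exact hx.2
  rw [hP, ← htot]
  ring

/-- `x² + x = c` has two solutions when `tr c = 0` and none otherwise. -/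
theorem card_sq_add (c : F) :
    (univ.filter fun x : F => x ^ 2 + x = c).card = if tr c = 0 then 2 else 0 := by
  have := charP2 (F := F)
  let φ : F →ₗ[ZMod 2] F :=
    { toFun := fun x => x ^ 2 + x
      map_add' := fun x y => by rw [add_sq, CharTwo.two_eq_zero (R := F)]; ring
      map_smul' := fun c x => by
        have hc : c = 0 ∨ c = 1 := by revert c; decide
        rcases hc with rfl | rfl <;> simp }
  have hker : (univ.filter fun x : F => φ x = 0) = {0, 1} := by
    ext x
    simp only [Finset.mem_filter, Finset.mem_univ, true_and, Finset.mem_insert,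
      Finset.mem_singleton, φ, LinearMap.coe_mk, AddHom.coe_mk]
    constructor
    · intro h
      have : x * (x + 1) = 0 := by rw [← h]; ring
      rcases mul_eq_zero.1 this with h | h
      · exact Or.inl h
      · exact Or.inr (eq_of_add_eq_zero' h)
    · rintro (rfl | rfl)
      · ring
      · rw [one_pow, CharTwo.add_self_eq_zero]
  have hker2 : (univ.filter fun x : F => φ x = 0).card = 2 := by
    rw [hker, Finset.card_pair zero_ne_one]
  have hfib : ∀ y, (∃ x, φ x = y) → (univ.filter fun x : F => φ x = y).card = 2 := by
    rintro y ⟨x, hx⟩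
    exact (AddMonoidHom.card_fiber_eq_of_mem_range φ.toAddMonoidHom ⟨x, hx⟩ ⟨0, by simp⟩).trans hker2
  have htr : ∀ x, tr (φ x) = 0 := by
    intro x
    simp only [φ, LinearMap.coe_mk, AddHom.coe_mk]
    rw [tr_add, tr_sq]
    exact CharTwo.add_self_eq_zero _
  have himg : (univ.image fun x : F => φ x).card * 2 = Fintype.card F := by
    have h1 : (univ : Finset F).card =
        ∑ y ∈ univ.image (fun x : F => φ x), (univ.filter fun x : F => φ x = y).card :=
      Finset.card_eq_sum_card_fiberwise (fun x _ => Finset.mem_coe.2 (Finset.mem_image_of_mem _ (Finset.mem_univ x)))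
    rw [Finset.sum_congr rfl (g := fun _ => 2) (by
      intro y hy
      rw [Finset.mem_image] at hy
      obtain ⟨x, _, hx⟩ := hy
      exact hfib y ⟨x, hx⟩), Finset.sum_const, smul_eq_mul, Finset.card_univ] at h1
    exact h1.symm
  have htr0 : (univ.filter fun x : F => tr x = 0).card * 2 = Fintype.card F := by
    have h1 := card_pattern (F := F) (ι := Unit) (β := fun _ => (1 : F))
      (by
        rw [linearIndependent_unique_iff]; exact one_ne_zero) 0 {0}
    simp only [Fintype.card_unit, pow_one, mul_one, add_zero, Finset.mem_singleton,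
      Finset.card_singleton, one_mul] at h1
    rw [mul_comm, ← h1]
    congr 2
    ext x
    simp only [Finset.mem_filter, Finset.mem_univ, true_and]
    constructor
    · intro h; funext i; simpa using h
    · intro h; simpa using congrFun h ()
  have heq : (univ.image fun x : F => φ x) = univ.filter fun x : F => tr x = 0 := by
    apply Finset.eq_of_subset_of_card_le
    · intro y hy
      rw [Finset.mem_image] at hy
      obtain ⟨x, _, rfl⟩ := hy
      simp [htr]
    · omega
  split_ifs with h
  · have : c ∈ univ.image fun x : F => φ x := by rw [heq]; simp [h]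
    rw [Finset.mem_image] at this
    obtain ⟨x, _, hx⟩ := this
    exact hfib c ⟨x, hx⟩
  · rw [Finset.card_eq_zero, Finset.filter_eq_empty_iff]
    intro x _ hx
    apply h
    rw [← hx]
    exact htr x

end KTT
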